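import Pool.Agent.J4H76.LB.Tr

/-! The trace identity with a cutoff. -/
set_option autoImplicit false
set_option linter.unusedVariables false
set_option linter.unusedSectionVars false

namespace Pool.Agent.J4H76.LC

open Pool.Agent.J4H76.LB
open Polynomial (aeval)

noncomputable section

variable {A A' : Type} [CommRing A] [Algebra ℝ A] [CommRing A'] [Algebra ℝ A']

/-- the factor that vanishes at the special points -/
def Zp (ρ r : A) : A := qq ρ r ^ 2 * (r ^ 2 - cc ρ) ^ 2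

/-- the cutoff -/
def cW (W : Polynomial ℝ) (ρ r : A) : A := 1 - Zp ρ r * aeval r W

def Q1 (W : Polynomial ℝ) (M N : ℕ) (ρ γ τ r : A) : A := P1 M N ρ γ τ r * cW W ρ r
def Q2 (W : Polynomial ℝ) (M N : ℕ) (ρ γ τ r : A) : A := P2 M N ρ γ τ r * cW W ρ r

def tw (W : Polynomial ℝ) (ρ x r : A) : A :=
  2 * r ^ 4 * aeval r W - x ^ 2 * dg ρ x * r ^ 8 * aeval r W ^ 2

lemma Zp_root {ρ x r r' : A} (hs : r + r' = ss ρ - x) (hp : r * r' = cc ρ) :
    Zp ρ r = x ^ 2 * dg ρ x * r ^ 4 := by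
  have h1 : qq ρ r = - (x * r) := by
    unfold qq; rw [← hp]
    linear_combination r * hs
  have h2 : (r - r') ^ 2 = dg ρ x := by
    have : (r - r') ^ 2 = (r + r') ^ 2 - 4 * (r * r') := by ring
    rw [this, hs, hp]; unfold ss cc dg; ring
  unfold Zp
  rw [h1, ← h2, ← hp]; ring

lemma cW_sq {ρ x r r' : A} (hs : r + r' = ss ρ - x) (hp : r * r' = cc ρ) (W : Polynomial ℝ) :
    cW W ρ r ^ 2 = 1 - x ^ 2 * dg ρ x * tw W ρ x r := by
  unfold cW tw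
  rw [Zp_root hs hp]; ring

/-- the trace -/
def Tg (W : Polynomial ℝ) (M N : ℕ) (ρ γ τ x : A) : A :=
  2 * (ff (sg M (N + 1) (li ρ x ρ) (li ρ x γ) (li ρ x τ) (rt ρ x)) *
    tw W (li ρ x ρ) (li ρ x x) (rt ρ x)).re

def GA (U : Polynomial ℝ) (x : A) : A := x * (4 - x) * aeval x U
def GB (V : Polynomial ℝ) (ρ x : A) : A := x * (4 * ρ ^ 2 - x) * aeval x V

/-- the symbol of the error -/
def Bn (U V W : Polynomial ℝ) (M N : ℕ) (ρ γ τ x : A) : A := Bg M N ρ γ τ x -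
  x * (4 * ρ ^ 2 - x) * (Tg W M N ρ γ τ x + aeval x U * aeval x V)

section maps
variable (f : A →ₐ[ℝ] A')

lemma map_ae (r : A) (W : Polynomial ℝ) : f (aeval r W) = aeval (f r) W :=
  (Polynomial.aeval_algHom_apply f r W).symm

lemma map_Zp (ρ r : A) : f (Zp ρ r) = Zp (f ρ) (f r) := by
  unfold Zp; simp only [map_mul, map_pow, map_sub, map_qq, map_cc]
lemma map_cW (W : Polynomial ℝ) (ρ r : A) : f (cW W ρ r) = cW W (f ρ) (f r) := by
  unfold cW; simp only [map_mul, map_sub, map_one, map_Zp, map_ae]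
lemma map_Q1 (W : Polynomial ℝ) (M N : ℕ) (ρ γ τ r : A) :
    f (Q1 W M N ρ γ τ r) = Q1 W M N (f ρ) (f γ) (f τ) (f r) := by
  unfold Q1; simp only [map_mul, map_P1, map_cW]
lemma map_Q2 (W : Polynomial ℝ) (M N : ℕ) (ρ γ τ r : A) :
    f (Q2 W M N ρ γ τ r) = Q2 W M N (f ρ) (f γ) (f τ) (f r) := by
  unfold Q2; simp only [map_mul, map_P2, map_cW]
lemma map_tw (W : Polynomial ℝ) (ρ x r : A) : f (tw W ρ x r) = tw W (f ρ) (f x) (f r) := by
  unfold tw; simp only [map_mul, map_sub, map_pow, map_ofNat, map_dg, map_ae]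
lemma map_GA (U : Polynomial ℝ) (x : A) : f (GA U x) = GA U (f x) := by
  unfold GA; simp only [map_mul, map_sub, map_ofNat, map_ae]
lemma map_GB (V : Polynomial ℝ) (ρ x : A) : f (GB V ρ x) = GB V (f ρ) (f x) := by
  unfold GB; simp only [map_mul, map_sub, map_pow, map_ofNat, map_ae]

lemma map_Tg (W : Polynomial ℝ) (M N : ℕ) (ρ γ τ x : A) :
    f (Tg W M N ρ γ τ x) = Tg W M N (f ρ) (f γ) (f τ) (f x) := by
  have h : mq f ρ x rfl rfl (ff (sg M (N + 1) (li ρ x ρ) (li ρ x γ) (li ρ x τ) (rt ρ x)) *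
      tw W (li ρ x ρ) (li ρ x x) (rt ρ x)) =
      ff (sg M (N + 1) (li (f ρ) (f x) (f ρ)) (li (f ρ) (f x) (f γ)) (li (f ρ) (f x) (f τ))
        (rt (f ρ) (f x))) * tw W (li (f ρ) (f x) (f ρ)) (li (f ρ) (f x) (f x))
        (rt (f ρ) (f x)) := by
    rw [map_mul, map_ff, map_sg, map_tw, mq_rt, mq_li, mq_li, mq_li, mq_li]
  have h1 := congrArg QuadraticAlgebra.re h
  have h1' : f (ff (sg M (N + 1) (li ρ x ρ) (li ρ x γ) (li ρ x τ) (rt ρ x)) *
      tw W (li ρ x ρ) (li ρ x x) (rt ρ x)).re = _ := h1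
  unfold Tg
  rw [map_mul, map_ofNat, h1']

lemma map_Bn (U V W : Polynomial ℝ) (M N : ℕ) (ρ γ τ x : A) :
    f (Bn U V W M N ρ γ τ x) = Bn U V W M N (f ρ) (f γ) (f τ) (f x) := by
  unfold Bn
  simp only [map_sub, map_mul, map_add, map_pow, map_ofNat, map_Bg, map_Tg, map_ae]

end maps

lemma Tg_root {ρ γ τ x r1 r2 : A} (hs : r1 + r2 = ss ρ - x) (hp : r1 * r2 = cc ρ)
    (W : Polynomial ℝ) (M N : ℕ) :
    ff (sg M (N + 1) ρ γ τ r1) * tw W ρ x r1 + ff (sg M (N + 1) ρ γ τ r2) * tw W ρ x r2 =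
      Tg W M N ρ γ τ x := by
  have hd : (r1 - r2) ^ 2 = dg ρ x := by
    have : (r1 - r2) ^ 2 = (r1 + r2) ^ 2 - 4 * (r1 * r2) := by ring
    rw [this, hs, hp]; unfold ss cc dg; ring
  have hd' : (-(r1 - r2)) ^ 2 = dg ρ x := by rw [neg_sq, hd]
  have e := two_e2 (A := A)
  have ev : ∀ (δ : A) (h : δ ^ 2 = dg ρ x) (r : A), e2 A * (ss ρ - x) + e2 A * δ = r →
      (ff (sg M (N + 1) (li ρ x ρ) (li ρ x γ) (li ρ x τ) (rt ρ x)) *
        tw W (li ρ x ρ) (li ρ x x) (rt ρ x)).re +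
      (ff (sg M (N + 1) (li ρ x ρ) (li ρ x γ) (li ρ x τ) (rt ρ x)) *
        tw W (li ρ x ρ) (li ρ x x) (rt ρ x)).im * δ =
      ff (sg M (N + 1) ρ γ τ r) * tw W ρ x r := by
    intro δ h r hr
    have h1 : eq' ρ x δ h (ff (sg M (N + 1) (li ρ x ρ) (li ρ x γ) (li ρ x τ) (rt ρ x)) *
        tw W (li ρ x ρ) (li ρ x x) (rt ρ x)) = ff (sg M (N + 1) ρ γ τ r) * tw W ρ x r := by
      rw [map_mul, map_ff, map_sg, map_tw]
      have hl : ∀ a : A, eq' ρ x δ h (li ρ x a) = a := by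
        intro a
        show (li ρ x a).re + (li ρ x a).im * δ = a
        simp [li]
      have hr' : eq' ρ x δ h (rt ρ x) = r := hr
      rw [hl, hl, hl, hl, hr']
    exact h1
  have v1 := ev (r1 - r2) hd r1 (by rw [← hs]; linear_combination r1 * e)
  have v2 := ev (-(r1 - r2)) hd' r2 (by rw [← hs]; linear_combination r2 * e)
  unfold Tg
  linear_combination - v1 - v2

/-- **the trace identity with a cutoff** -/
theorem trace2 {ρ γ τ x r1 r2 : A} (hγ : γ * cc ρ ^ 2 = 1) (hτ : τ ^ 2 * (16 * ρ ^ 2) = 1)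
    (hs : r1 + r2 = ss ρ - x) (hp : r1 * r2 = cc ρ) (U V W : Polynomial ℝ) (M N : ℕ) :
    (Q1 W M (N + 1) ρ γ τ r1 ^ 2 + Q2 W M (N + 1) ρ γ τ r1 ^ 2) +
      (Q1 W M (N + 1) ρ γ τ r2 ^ 2 + Q2 W M (N + 1) ρ γ τ r2 ^ 2) =
      1 + GA U x * GB V ρ x + x * (4 - x) * Bn U V W M N ρ γ τ x := by
  have h1 := trace_id hγ hτ hs hp M N
  have h2 := Tg_root (γ := γ) (τ := τ) hs hp W M N
  have h3 := cW_sq hs hp W
  have h4 := cW_sq (r := r2) (r' := r1) (x := x) (by rw [add_comm]; exact hs)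
    (by rw [mul_comm]; exact hp) W
  have e1 : Q1 W M (N + 1) ρ γ τ r1 ^ 2 + Q2 W M (N + 1) ρ γ τ r1 ^ 2 =
      ff (sg M (N + 1) ρ γ τ r1) * cW W ρ r1 ^ 2 := by
    unfold Q1 Q2; rw [← P_sq]; ring
  have e2 : Q1 W M (N + 1) ρ γ τ r2 ^ 2 + Q2 W M (N + 1) ρ γ τ r2 ^ 2 =
      ff (sg M (N + 1) ρ γ τ r2) * cW W ρ r2 ^ 2 := by
    unfold Q1 Q2; rw [← P_sq]; ring
  rw [e1, e2, h3, h4]
  unfold GA GB Bn
  have hdg : dg ρ x = (4 - x) * (4 * ρ ^ 2 - x) := rfl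
  rw [← h2, hdg]
  linear_combination h1

end

end Pool.Agent.J4H76.LC
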