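import Pool.Agent.J4H76.LB.Quad
import Pool.Agent.J4H76.LC.Gen

/-! The consequence for quartic systems, with a cutoff. -/
set_option autoImplicit false
open Filter Topology

namespace Pool.Agent.J4H76.LC

noncomputable section

open Pool.Agent.J4H76.TP Pool.Agent.J4H76.LB
open AddMonoidAlgebra (single)

lemma xz_xw {ρ : BS} {J : Z4 → ℕ → ℂ} (H : QS ρ J) :
    Ideal.Quotient.mkₐ ℝ (NI J) (io (dir 1 (-1) 0 0) xz) =
      Ideal.Quotient.mkₐ ℝ (NI J) (io (dir 0 0 1 (-1)) (xw ρ)) := by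
  have qt : Ideal.Quotient.mkₐ ℝ (NI J) (TT ρ) = 0 := Ideal.Quotient.eq_zero_iff_mem.2 H.t
  have qt' : Ideal.Quotient.mkₐ ℝ (NI J) (TT' ρ) = 0 := Ideal.Quotient.eq_zero_iff_mem.2 H.t'
  obtain ⟨Q, hQ⟩ : ∃ Q : AA Z4 →ₐ[ℝ] (AA Z4 ⧸ NI J), Q = Ideal.Quotient.mkₐ ℝ (NI J) := ⟨_, rfl⟩
  rw [← hQ] at qt qt'
  rw [← hQ]
  obtain ⟨c, hc⟩ : ∃ c, c = Q (cs ρ) := ⟨_, rfl⟩
  obtain ⟨z1, hz1⟩ : ∃ c, c = Q (mn 1 0 0 0) := ⟨_, rfl⟩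
  obtain ⟨z2, hz2⟩ : ∃ c, c = Q (mn 0 1 0 0) := ⟨_, rfl⟩
  obtain ⟨w1, hw1⟩ : ∃ c, c = Q (mn 0 0 1 0) := ⟨_, rfl⟩
  obtain ⟨w2, hw2⟩ : ∃ c, c = Q (mn 0 0 0 1) := ⟨_, rfl⟩
  obtain ⟨z1', hz1'⟩ : ∃ c, c = Q (mn (-1) 0 0 0) := ⟨_, rfl⟩
  obtain ⟨z2', hz2'⟩ : ∃ c, c = Q (mn 0 (-1) 0 0) := ⟨_, rfl⟩
  obtain ⟨w1', hw1'⟩ : ∃ c, c = Q (mn 0 0 (-1) 0) := ⟨_, rfl⟩
  obtain ⟨w2', hw2'⟩ : ∃ c, c = Q (mn 0 0 0 (-1)) := ⟨_, rfl⟩
  have i1 : z1 * z1' = 1 := by rw [hz1, hz1', ← map_mul, mn_mul]; exact map_one Q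
  have i2 : z2 * z2' = 1 := by rw [hz2, hz2', ← map_mul, mn_mul]; exact map_one Q
  have i3 : w1 * w1' = 1 := by rw [hw1, hw1', ← map_mul, mn_mul]; exact map_one Q
  have i4 : w2 * w2' = 1 := by rw [hw2, hw2', ← map_mul, mn_mul]; exact map_one Q
  have t : z1 + z2 + c * (w1 + w2) = 0 := by
    rw [← qt, TT, hz1, hz2, hw1, hw2, hc]; simp only [map_add, map_mul]
  have t' : z1' + z2' + c * (w1' + w2') = 0 := by
    rw [← qt', TT', hz1', hz2', hw1', hw2', hc]; simp only [map_add, map_mul]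
  have hxw : c ^ 2 * ((w1 + w2) * (w1' + w2')) = (z1 + z2) * (z1' + z2') := by
    have := id_x (ρ := c) (z1 := z1) (z2 := z2) (w1 := w1) (w2 := w2) (z1' := z1') (z2' := z2')
      (w1' := w1') (w2' := w2') trivial
    rw [t, t', zero_mul, zero_mul, sub_zero, sub_eq_zero] at this
    exact this.symm
  have e1 : Q (io (dir 1 (-1) 0 0) xz) = (z1 + z2) * (z1' + z2') := by
    have h1 : Q (mn 1 (-1) 0 0) = z1 * z2' := by rw [hz1, hz2', ← map_mul, mn_mul]; rfl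
    have h2 : Q (mn (-1) (- -1) (-0) (-0)) = z1' * z2 := by rw [hz1', hz2, ← map_mul, mn_mul]; rfl
    unfold xz
    simp only [map_add, map_ofNat, io_xx, io_xx']
    rw [h1, h2]
    linear_combination (-1 : AA Z4 ⧸ NI J) * i1 - i2
  have e2 : Q (io (dir 0 0 1 (-1)) (xw ρ)) = c ^ 2 * ((w1 + w2) * (w1' + w2')) := by
    have h1 : Q (mn 0 0 1 (-1)) = w1 * w2' := by rw [hw1, hw2', ← map_mul, mn_mul]; rfl
    have h2 : Q (mn (-0) (-0) (-1) (- -1)) = w1' * w2 := by rw [hw1', hw2, ← map_mul, mn_mul]; rfl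
    unfold xw
    simp only [map_add, map_mul, map_pow, map_ofNat, io_xx, io_xx', io_cs]
    rw [h1, h2, ← hc]
    linear_combination (-c ^ 2) * i3 - c ^ 2 * i4
  rw [e1, e2, hxw]

/-- **the lower bound identity with a cutoff** -/
theorem lb2 {ρ : BS} {J : Z4 → ℕ → ℂ} (H : QS ρ J) (γ τ : BS) (hγ : γ * cc ρ ^ 2 = 1)
    (hτ : τ ^ 2 * (16 * ρ ^ 2) = 1) (U V W : Polynomial ℝ) (M N : ℕ) :
    Tendsto (fun n => 2 * (EE J (io (dir 1 0 (-1) 0) (Q1 W M (N + 1) (cs ρ) (cs γ) (cs τ) (rr ρ)) *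
        io (dir 0 (-1) 0 1) (Q1 W M (N + 1) (cs ρ) (cs γ) (cs τ) (rr ρ))) n +
      EE J (io (dir 1 0 (-1) 0) (Q2 W M (N + 1) (cs ρ) (cs γ) (cs τ) (rr ρ)) *
        io (dir 0 (-1) 0 1) (Q2 W M (N + 1) (cs ρ) (cs γ) (cs τ) (rr ρ))) n) -
      J (0, 0, 0, 0) n - EE J (io (dir 1 (-1) 0 0) (GA U xz) *
        io (dir 0 0 1 (-1)) (GB V (cs ρ) (xw ρ))) n - EE J (io (dir 1 (-1) 0 0) A1 *
        io (dir 0 0 1 (-1)) (Bn U V W M N (cs ρ) (cs γ) (cs τ) (xw ρ))) n) atTop (𝓝 0) := by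
  have hx' := xz_xw H
  obtain ⟨r1, r2, x, e13, e14, e24, eA, h3, hs, hp⟩ := qdata H
  have mq : ∀ f : AA Z4, Ideal.Quotient.mkₐ ℝ (NI J) f = 0 → Tendsto (EE J f) atTop (𝓝 0) :=
    fun f h => mem_of_quot h
  obtain ⟨Q, hQ⟩ : ∃ Q : AA Z4 →ₐ[ℝ] (AA Z4 ⧸ NI J), Q = Ideal.Quotient.mkₐ ℝ (NI J) := ⟨_, rfl⟩
  rw [← hQ] at e13 e14 e24 eA h3 hs hp mq hx'
  rw [h3] at hx'
  have hγ' : Q (cs γ) * cc (Q (cs ρ)) ^ 2 = 1 := by
    have := congrArg (fun r => Q (csG Z4 r)) hγ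
    simp only [map_mul, map_pow, map_cc, map_one, csG_ap] at this
    exact this
  have hτ' : Q (cs τ) ^ 2 * (16 * Q (cs ρ) ^ 2) = 1 := by
    have := congrArg (fun r => Q (csG Z4 r)) hτ
    simp only [map_mul, map_pow, map_ofNat, map_one, csG_ap] at this
    exact this
  have qP1 : ∀ (a b c d : ℤ) (r : AA Z4 ⧸ NI J), Q (io (dir a b c d) (rr ρ)) = r →
      Q (io (dir a b c d) (Q1 W M (N + 1) (cs ρ) (cs γ) (cs τ) (rr ρ))) =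
        Q1 W M (N + 1) (Q (cs ρ)) (Q (cs γ)) (Q (cs τ)) r := by
    intro a b c d r h
    rw [map_Q1, map_Q1, io_cs, io_cs, io_cs, h]
  have qP2 : ∀ (a b c d : ℤ) (r : AA Z4 ⧸ NI J), Q (io (dir a b c d) (rr ρ)) = r →
      Q (io (dir a b c d) (Q2 W M (N + 1) (cs ρ) (cs γ) (cs τ) (rr ρ))) =
        Q2 W M (N + 1) (Q (cs ρ)) (Q (cs γ)) (Q (cs τ)) r := by
    intro a b c d r h
    rw [map_Q2, map_Q2, io_cs, io_cs, io_cs, h]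
  have eB : Q (io (dir 0 0 1 (-1)) (Bn U V W M N (cs ρ) (cs γ) (cs τ) (xw ρ))) =
      Bn U V W M N (Q (cs ρ)) (Q (cs γ)) (Q (cs τ)) x := by
    rw [map_Bn, map_Bn, io_cs, io_cs, io_cs, h3]
  have eU : Q (io (dir 1 (-1) 0 0) (GA U xz)) = GA U x := by
    rw [map_GA, map_GA, hx']
  have eV : Q (io (dir 0 0 1 (-1)) (GB V (cs ρ) (xw ρ))) = GB V (Q (cs ρ)) x := by
    rw [map_GB, map_GB, io_cs, h3]
  obtain ⟨p, hp1⟩ : ∃ p, p = Q1 W M (N + 1) (cs ρ) (cs γ) (cs τ) (rr ρ) := ⟨_, rfl⟩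
  obtain ⟨p', hp2⟩ : ∃ p, p = Q2 W M (N + 1) (cs ρ) (cs γ) (cs τ) (rr ρ) := ⟨_, rfl⟩
  obtain ⟨b, hb⟩ : ∃ b, b = Bn U V W M N (cs ρ) (cs γ) (cs τ) (xw ρ) := ⟨_, rfl⟩
  obtain ⟨u, hu⟩ : ∃ u, u = GA U xz := ⟨_, rfl⟩
  obtain ⟨v, hv⟩ : ∃ v, v = GB V (cs ρ) (xw ρ) := ⟨_, rfl⟩
  rw [← hp1] at qP1
  rw [← hp2] at qP2
  rw [← hb] at eB
  rw [← hu] at eU
  rw [← hv] at eV
  rw [← hp1, ← hp2, ← hb, ← hu, ← hv]
  have a1 := qP1 _ _ _ _ _ e13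
  have a2 := qP1 _ _ _ _ _ e14
  have a3 := qP1 _ _ _ _ _ e24
  have b1 := qP2 _ _ _ _ _ e13
  have b2 := qP2 _ _ _ _ _ e14
  have b3 := qP2 _ _ _ _ _ e24
  have tr := trace2 hγ' hτ' hs hp U V W M N
  have t1 : Tendsto (EE J ((io (dir 1 0 (-1) 0) p * io (dir 1 0 (-1) 0) p +
      io (dir 1 0 (-1) 0) p' * io (dir 1 0 (-1) 0) p') +
      (io (dir 1 0 0 (-1)) p * io (dir 1 0 0 (-1)) p +
      io (dir 1 0 0 (-1)) p' * io (dir 1 0 0 (-1)) p') - single 0 1 -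
      io (dir 1 (-1) 0 0) u * io (dir 0 0 1 (-1)) v -
      io (dir 1 (-1) 0 0) A1 * io (dir 0 0 1 (-1)) b)) atTop (𝓝 0) := by
    refine mq _ ?_
    have q1 : Q (single 0 1) = 1 := map_one Q
    simp only [map_sub, map_add, map_mul, a1, a2, b1, b2, eA, eB, q1, eU, eV]
    linear_combination tr
  have t2 : Tendsto (EE J (io (dir 1 0 (-1) 0) p * io (dir 0 (-1) 0 1) p -
      io (dir 1 0 (-1) 0) p * io (dir 1 0 (-1) 0) p)) atTop (𝓝 0) := by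
    refine mq _ ?_
    rw [map_sub, map_mul, map_mul, a1, a3]
    ring
  have t3 : Tendsto (EE J (io (dir 1 0 (-1) 0) p' * io (dir 0 (-1) 0 1) p' -
      io (dir 1 0 (-1) 0) p' * io (dir 1 0 (-1) 0) p')) atTop (𝓝 0) := by
    refine mq _ ?_
    rw [map_sub, map_mul, map_mul, b1, b3]
    ring
  have sw : ∀ (q : AA ℤ) (n : ℕ), EE J (io (dir 1 0 (-1) 0) q * io (dir 1 0 (-1) 0) q) n =
      EE J (io (dir 1 0 0 (-1)) q * io (dir 1 0 0 (-1)) q) n := by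
    intro q n
    rw [← map_mul, ← map_mul, EE_io, EE_io]
    congr 1
    funext k n
    simp only [dir, AddMonoidHom.coe_mk, ZeroHom.coe_mk]
    exact H.sw _ _ _ _ n
  have t4 := ((t2.add t3).const_mul 2).add t1
  simp only [add_zero, mul_zero] at t4
  refine t4.congr fun n => ?_
  have e1 : EE J (single 0 1) n = J (0, 0, 0, 0) n := by
    rw [EE_single, BS.one_ap, Complex.ofReal_one, one_mul]; rfl
  rw [EE_sub, EE_sub, EE_sub, EE_sub, EE_sub, EE_add, EE_add, EE_add, ← sw p n, ← sw p' n, e1]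
  ring

end

end Pool.Agent.J4H76.LC
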