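import Pool.Agent.J4H76.LB.Main
import Pool.Agent.J4H76.LC.Quad

/-! The core estimate with a cutoff. -/
set_option autoImplicit false
open MeasureTheory Filter Topology Complex Set
open scoped ContDiff Real Manifold

namespace Pool.Agent.J4H76.LC

open Pool.Agent.W745.RW Pool.Agent.TH294.RS Pool.Agent.Y265.HY Pool.Agent.R314.JN
open Pool.Agent.J4H76.TP Pool.Agent.J4H76.LB
open AddMonoidAlgebra (single)

noncomputable section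

variable {B : Set ℂ} {h κ : ℕ → ℝ} {w v : ℤ → ℕ → ℂ → ℂ}

lemma ez_Q1 (W : Polynomial ℝ) (M N : ℕ) (ρ γ τ : BS) (θ : ℝ) (n : ℕ) :
    ez (ex θ) n (Q1 W M N (cs ρ) (cs γ) (cs τ) (rr ρ)) =
      ((Q1 W M N (ρ.1 n) (γ.1 n) (τ.1 n) (Rf (ρ.1 n) θ) : ℝ) : ℂ) := by
  rw [map_Q1, ez_cs, ez_cs, ez_cs, ez_rr]
  have h := map_Q1 Complex.ofRealAm W M N (ρ.1 n) (γ.1 n) (τ.1 n) (Rf (ρ.1 n) θ)
  simp only [Complex.ofRealAm_coe] at h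
  exact h.symm

lemma ez_Q2 (W : Polynomial ℝ) (M N : ℕ) (ρ γ τ : BS) (θ : ℝ) (n : ℕ) :
    ez (ex θ) n (Q2 W M N (cs ρ) (cs γ) (cs τ) (rr ρ)) =
      ((Q2 W M N (ρ.1 n) (γ.1 n) (τ.1 n) (Rf (ρ.1 n) θ) : ℝ) : ℂ) := by
  rw [map_Q2, ez_cs, ez_cs, ez_cs, ez_rr]
  have h := map_Q2 Complex.ofRealAm W M N (ρ.1 n) (γ.1 n) (τ.1 n) (Rf (ρ.1 n) θ)
  simp only [Complex.ofRealAm_coe] at h
  exact h.symm

lemma ez_Bn (U V W : Polynomial ℝ) (M N : ℕ) (ρ γ τ : BS) (θ : ℝ) (n : ℕ) :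
    ez (ex θ) n (Bn U V W M N (cs ρ) (cs γ) (cs τ) (xw ρ)) =
      ((Bn U V W M N (ρ.1 n) (γ.1 n) (τ.1 n) (Xf (ρ.1 n) θ) : ℝ) : ℂ) := by
  rw [map_Bn, ez_cs, ez_cs, ez_cs, ez_xw]
  have h := map_Bn Complex.ofRealAm U V W M N (ρ.1 n) (γ.1 n) (τ.1 n) (Xf (ρ.1 n) θ)
  simp only [Complex.ofRealAm_coe] at h
  exact h.symm

lemma ez_GB (V : Polynomial ℝ) (ρ : BS) (θ : ℝ) (n : ℕ) :
    ez (ex θ) n (GB V (cs ρ) (xw ρ)) = ((GB V (ρ.1 n) (Xf (ρ.1 n) θ) : ℝ) : ℂ) := by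
  rw [map_GB, ez_cs, ez_xw]
  have h := map_GB Complex.ofRealAm V (ρ.1 n) (Xf (ρ.1 n) θ)
  simp only [Complex.ofRealAm_coe] at h
  exact h.symm

lemma ez_xz (θ : ℝ) (n : ℕ) : ez (ex θ) n xz = ((2 + 2 * Real.cos θ : ℝ) : ℂ) := by
  unfold xz
  rw [map_add, map_add, add_assoc, ez_y, map_ofNat]
  push_cast; ring

lemma ez_GA (U : Polynomial ℝ) (θ : ℝ) (n : ℕ) :
    ez (ex θ) n (GA U xz) = ((GA U (2 + 2 * Real.cos θ) : ℝ) : ℂ) := by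
  rw [map_GA, ez_xz]
  have h := map_GA Complex.ofRealAm U (2 + 2 * Real.cos θ)
  simp only [Complex.ofRealAm_coe] at h
  exact h.symm

lemma N2_Q1 (W : Polynomial ℝ) (M N : ℕ) (ρ γ τ : BS) (n : ℕ) :
    N2 (Q1 W M N (cs ρ) (cs γ) (cs τ) (rr ρ)) n =
      ms (fun θ => Q1 W M N (ρ.1 n) (γ.1 n) (τ.1 n) (Rf (ρ.1 n) θ)) :=
  N2_real (fun θ => ez_Q1 W M N ρ γ τ θ n) fun θ => by unfold Rf; rw [Real.cos_neg]

lemma N2_Q2 (W : Polynomial ℝ) (M N : ℕ) (ρ γ τ : BS) (n : ℕ) :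
    N2 (Q2 W M N (cs ρ) (cs γ) (cs τ) (rr ρ)) n =
      ms (fun θ => Q2 W M N (ρ.1 n) (γ.1 n) (τ.1 n) (Rf (ρ.1 n) θ)) :=
  N2_real (fun θ => ez_Q2 W M N ρ γ τ θ n) fun θ => by unfold Rf; rw [Real.cos_neg]

lemma N2_Bn (U V W : Polynomial ℝ) (M N : ℕ) (ρ γ τ : BS) (n : ℕ) :
    N2 (Bn U V W M N (cs ρ) (cs γ) (cs τ) (xw ρ)) n =
      ms (fun θ => Bn U V W M N (ρ.1 n) (γ.1 n) (τ.1 n) (Xf (ρ.1 n) θ)) :=
  N2_real (fun θ => ez_Bn U V W M N ρ γ τ θ n) fun θ => by unfold Xf; rw [Real.cos_neg]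

lemma N2_GB (V : Polynomial ℝ) (ρ : BS) (n : ℕ) :
    N2 (GB V (cs ρ) (xw ρ)) n = ms (fun θ => GB V (ρ.1 n) (Xf (ρ.1 n) θ)) :=
  N2_real (fun θ => ez_GB V ρ θ n) fun θ => by unfold Xf; rw [Real.cos_neg]

lemma N2_GA (U : Polynomial ℝ) (n : ℕ) :
    N2 (GA U xz) n = ms (fun θ => GA U (2 + 2 * Real.cos θ)) :=
  N2_real (fun θ => ez_GA U θ n) fun θ => by rw [Real.cos_neg]

lemma Xf_0 (ρ : ℝ) : Xf ρ 0 = 4 * ρ ^ 2 := by unfold Xf; rw [Real.cos_zero]; ring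
lemma Xf_pi (ρ : ℝ) : Xf ρ Real.pi = 0 := by unfold Xf; rw [Real.cos_pi]; ring

lemma GA_0 (U : Polynomial ℝ) (n : ℕ) : ez (ex 0) n (GA U xz) = 0 := by
  rw [ez_GA, Real.cos_zero]
  have : GA U ((2 : ℝ) + 2 * 1) = 0 := by unfold GA; norm_num
  rw [this, ofReal_zero]
lemma GA_pi (U : Polynomial ℝ) (n : ℕ) : ez (ex Real.pi) n (GA U xz) = 0 := by
  rw [ez_GA, Real.cos_pi]
  have : GA U ((2 : ℝ) + 2 * -1) = 0 := by unfold GA; norm_num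
  rw [this, ofReal_zero]
lemma GB_0 (V : Polynomial ℝ) (ρ : BS) (n : ℕ) : ez (ex 0) n (GB V (cs ρ) (xw ρ)) = 0 := by
  rw [ez_GB, Xf_0]
  have : GB V (ρ.1 n) (4 * (ρ.1 n) ^ 2) = 0 := by unfold GB; ring
  rw [this, ofReal_zero]
lemma GB_pi (V : Polynomial ℝ) (ρ : BS) (n : ℕ) :
    ez (ex Real.pi) n (GB V (cs ρ) (xw ρ)) = 0 := by
  rw [ez_GB, Xf_pi]
  have : GB V (ρ.1 n) 0 = 0 := by unfold GB; ring
  rw [this, ofReal_zero]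
lemma Bn_0 (U V W : Polynomial ℝ) (M N : ℕ) (ρ γ τ : BS) (n : ℕ) :
    ez (ex 0) n (Bn U V W M N (cs ρ) (cs γ) (cs τ) (xw ρ)) = 0 := by
  rw [ez_Bn, Xf_0]
  have : Bn U V W M N (ρ.1 n) (γ.1 n) (τ.1 n) (4 * (ρ.1 n) ^ 2) = 0 := by
    unfold Bn Bg; ring
  rw [this, ofReal_zero]
lemma Bn_pi (U V W : Polynomial ℝ) (M N : ℕ) (ρ γ τ : BS) (n : ℕ) :
    ez (ex Real.pi) n (Bn U V W M N (cs ρ) (cs γ) (cs τ) (xw ρ)) = 0 := by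
  rw [ez_Bn, Xf_pi]
  have : Bn U V W M N (ρ.1 n) (γ.1 n) (τ.1 n) 0 = 0 := by
    unfold Bn Bg; ring
  rw [this, ofReal_zero]

/-- **the core estimate** -/
theorem core2 (H : SY B Complex.im h w) (H' : SY B Complex.im κ v) (hBU : B ⊆ UH) {C : ℝ}
    (hC : ∀ n, h n ≤ C * κ n) (hC' : ∀ n, κ n ≤ C * h n) (h0 : EX B h w (w 0))
    (k0 : EX B κ v (v 0)) {φ : ℂ → ℝ} (hφ : TF B φ) (hφ0 : ∀ z, 0 ≤ φ z) (ρ γ τ : BS)
    (hρ : ∀ n, ρ.1 n = h n / κ n) (hγ : γ * cc ρ ^ 2 = 1) (hτ : τ ^ 2 * (16 * ρ ^ 2) = 1)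
    (U V W : Polynomial ℝ) (M N : ℕ) {θ d : ℝ} (hθ0 : 0 < θ) (hd : 0 < d) :
    ∀ᶠ n in atTop, (∫ z, φ z) -
      2 * (N2 (Q1 W M (N + 1) (cs ρ) (cs γ) (cs τ) (rr ρ)) n +
        N2 (Q2 W M (N + 1) (cs ρ) (cs γ) (cs τ) (rr ρ)) n) * (∫ z, φ z) -
      (N2 (GA U xz) n + N2 (GB V (cs ρ) (xw ρ)) n) * (∫ z, φ z) -
      (θ / 2 * (2 * N2 A1 n * (∫ z, φ z) + 1) +
      1 / (2 * θ) * (2 * N2 (Bn U V W M N (cs ρ) (cs γ) (cs τ) (xw ρ)) n * (∫ z, φ z) + d)) -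
        2 * d ≤ (J4 w v φ 0 0 0 0 n).re := by
  obtain ⟨m, hm⟩ : ∃ m : ℝ, m = ∫ z, φ z := ⟨_, rfl⟩
  have a1 := sf_bd H hBU h0 hφ hφ0 A1 A1_0 A1_pi (ε := 1) one_pos
  have a2 := sf_bd H' hBU k0 hφ hφ0 (Bn U V W M N (cs ρ) (cs γ) (cs τ) (xw ρ))
    (Bn_0 U V W M N ρ γ τ) (Bn_pi U V W M N ρ γ τ) hd
  have a3 := sf_bd H hBU h0 hφ hφ0 (GA U xz) (GA_0 U) (GA_pi U) hd
  have a4 := sf_bd H' hBU k0 hφ hφ0 (GB V (cs ρ) (xw ρ)) (GB_0 V ρ) (GB_pi V ρ) hd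
  have q := lb2 (qs H H' hBU hC hC' h0 k0 hφ ρ hρ) γ τ hγ hτ U V W M N
  rw [tendsto_zero_iff_norm_tendsto_zero] at q
  obtain ⟨p1, hp1⟩ : ∃ p, p = Q1 W M (N + 1) (cs ρ) (cs γ) (cs τ) (rr ρ) := ⟨_, rfl⟩
  obtain ⟨p2, hp2⟩ : ∃ p, p = Q2 W M (N + 1) (cs ρ) (cs γ) (cs τ) (rr ρ) := ⟨_, rfl⟩
  obtain ⟨b, hb⟩ : ∃ b, b = Bn U V W M N (cs ρ) (cs γ) (cs τ) (xw ρ) := ⟨_, rfl⟩
  obtain ⟨su, hsu⟩ : ∃ u, u = GA U xz := ⟨_, rfl⟩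
  obtain ⟨sv, hsv⟩ : ∃ v, v = GB V (cs ρ) (xw ρ) := ⟨_, rfl⟩
  have hpi : ∀ n, ez (ex Real.pi) n su = 0 := by rw [hsu]; exact GA_pi U
  rw [← hb] at a2 ⊢
  rw [← hsu] at a3 ⊢
  rw [← hsv] at a4 ⊢
  rw [← hp1, ← hp2]
  rw [← hp1, ← hp2, ← hb, ← hsu, ← hsv] at q
  filter_upwards [a1, a2, a3, a4, q.eventually (gt_mem_nhds hd)] with n h3 h4 h6 h7 h5
  rw [JD_P H H' hφ, JD_P H H' hφ, JD_AB H H' hφ A1 b n (A1_pi n),
    JD_AB H H' hφ su sv n (hpi n), ← hm] at h5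
  rw [← hm] at h3 h4 h6 h7 ⊢
  have b1 := cs_ab hφ hφ0 (sf_cont H A1 n) (sf_cont H' b n) hθ0
  have b2 := cs_ab hφ hφ0 (sf_cont H su n) (sf_cont H' sv n) one_pos
  have e0 : JD w v φ (0, 0, 0, 0) n = J4 w v φ 0 0 0 0 n - ((m : ℝ) : ℂ) := by
    simp only [JD]
    rw [← hm]
    have : CC 0 0 = 1 := by unfold CC; simp
    rw [this]; ring
  rw [e0] at h5
  obtain ⟨D1, hD1⟩ : ∃ D : ℝ, D = ∫ z, φ z * ‖Pn w v p1 n z‖ ^ 2 := ⟨_, rfl⟩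
  obtain ⟨D2, hD2⟩ : ∃ D : ℝ, D = ∫ z, φ z * ‖Pn w v p2 n z‖ ^ 2 := ⟨_, rfl⟩
  have D10 : 0 ≤ D1 := by
    rw [hD1]; exact integral_nonneg fun z => mul_nonneg (hφ0 z) (sq_nonneg _)
  have D20 : 0 ≤ D2 := by
    rw [hD2]; exact integral_nonneg fun z => mul_nonneg (hφ0 z) (sq_nonneg _)
  obtain ⟨X, hX⟩ : ∃ X : ℂ, X = ∫ z, (φ z : ℂ) * (sf w A1 n z * sf v b n z) := ⟨_, rfl⟩
  obtain ⟨Y, hY⟩ : ∃ Y : ℂ, Y = ∫ z, (φ z : ℂ) * (sf w su n z * sf v sv n z) := ⟨_, rfl⟩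
  obtain ⟨J, hJ⟩ : ∃ J : ℂ, J = J4 w v φ 0 0 0 0 n := ⟨_, rfl⟩
  rw [← hD1, ← hD2, ← hX, ← hJ, ← hY] at h5
  rw [← hX] at b1
  rw [← hY] at b2
  rw [← hJ]
  obtain ⟨n1, hn1⟩ : ∃ n1, n1 = N2 p1 n := ⟨_, rfl⟩
  obtain ⟨n2, hn2⟩ : ∃ n2, n2 = N2 p2 n := ⟨_, rfl⟩
  rw [← hn1, ← hn2] at h5 ⊢
  have r1 := (Complex.abs_re_le_norm _).trans h5.le
  have e1 : (2 * (((D1 : ℝ) : ℂ) - ((n1 : ℝ) : ℂ) * ((m : ℝ) : ℂ) +
      (((D2 : ℝ) : ℂ) - ((n2 : ℝ) : ℂ) * ((m : ℝ) : ℂ))) - (J - ((m : ℝ) : ℂ)) - Y - X).re =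
      2 * ((D1 - n1 * m) + (D2 - n2 * m)) - (J.re - m) - Y.re - X.re := by
    have : 2 * (((D1 : ℝ) : ℂ) - ((n1 : ℝ) : ℂ) * ((m : ℝ) : ℂ) +
      (((D2 : ℝ) : ℂ) - ((n2 : ℝ) : ℂ) * ((m : ℝ) : ℂ))) - (J - ((m : ℝ) : ℂ)) - Y - X =
      ((2 * ((D1 - n1 * m) + (D2 - n2 * m)) + m : ℝ) : ℂ) - J - Y - X := by push_cast; ring
    rw [this, sub_re, sub_re, sub_re, ofReal_re]; ring
  rw [e1] at r1
  have r2 := (abs_le.1 r1).2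
  have r3 : -‖X‖ ≤ -X.re := by
    have := (le_abs_self _).trans (Complex.abs_re_le_norm X)
    linarith
  have r4 : -‖Y‖ ≤ -Y.re := by
    have := (le_abs_self _).trans (Complex.abs_re_le_norm Y)
    linarith
  have b3 : θ / 2 * (∫ z, φ z * ‖sf w A1 n z‖ ^ 2) ≤ θ / 2 * (2 * N2 A1 n * m + 1) :=
    mul_le_mul_of_nonneg_left h3 (by positivity)
  have b4 : 1 / (2 * θ) * (∫ z, φ z * ‖sf v b n z‖ ^ 2) ≤
      1 / (2 * θ) * (2 * N2 b n * m + d) :=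
    mul_le_mul_of_nonneg_left h4 (by positivity)
  linarith

/-! ### the limit -/

lemma ae_ct (g : C(YY, ℝ)) (W : Polynomial ℝ) : Continuous (fun y : YY => W.eval (g y)) :=
  W.continuous.comp g.continuous

lemma Q1_ct (W : Polynomial ℝ) (M N : ℕ) :
    Continuous (fun y : YY => Q1 W M N y.1 y.2.1 y.2.2.1 (Rf y.1 y.2.2.2)) := by
  have h : (fun y : YY => Q1 W M N y.1 y.2.1 y.2.2.1 (Rf y.1 y.2.2.2)) =
      (Q1 W M N c1 c2 c3 cR) := by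
    funext y
    exact (map_Q1 (ContinuousMap.evalAlgHom ℝ ℝ y) W M N c1 c2 c3 cR).symm
  rw [h]; exact ContinuousMap.continuous _

lemma Q2_ct (W : Polynomial ℝ) (M N : ℕ) :
    Continuous (fun y : YY => Q2 W M N y.1 y.2.1 y.2.2.1 (Rf y.1 y.2.2.2)) := by
  have h : (fun y : YY => Q2 W M N y.1 y.2.1 y.2.2.1 (Rf y.1 y.2.2.2)) =
      (Q2 W M N c1 c2 c3 cR) := by
    funext y
    exact (map_Q2 (ContinuousMap.evalAlgHom ℝ ℝ y) W M N c1 c2 c3 cR).symm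
  rw [h]; exact ContinuousMap.continuous _

set_option maxRecDepth 10000 in
lemma Bn_ct (U V W : Polynomial ℝ) (M N : ℕ) :
    Continuous (fun y : YY => Bn U V W M N y.1 y.2.1 y.2.2.1 (Xf y.1 y.2.2.2)) := by
  obtain ⟨G, hG⟩ : ∃ G : C(YY, ℝ), G = Bn U V W M N c1 c2 c3 cX := ⟨_, rfl⟩
  have h : (fun y : YY => Bn U V W M N y.1 y.2.1 y.2.2.1 (Xf y.1 y.2.2.2)) = G := by
    funext y
    rw [hG]
    exact (map_Bn (ContinuousMap.evalAlgHom ℝ ℝ y) U V W M N c1 c2 c3 cX).symm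
  rw [h]; exact ContinuousMap.continuous _

lemma GB_ct (V : Polynomial ℝ) :
    Continuous (fun y : YY => GB V y.1 (Xf y.1 y.2.2.2)) := by
  obtain ⟨G, hG⟩ : ∃ G : C(YY, ℝ), G = GB V c1 cX := ⟨_, rfl⟩
  have h : (fun y : YY => GB V y.1 (Xf y.1 y.2.2.2)) = G := by
    funext y
    rw [hG]
    exact (map_GB (ContinuousMap.evalAlgHom ℝ ℝ y) V c1 cX).symm
  rw [h]; exact ContinuousMap.continuous _

/-- the cost of a choice of symbols -/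
def cst (ρ : ℝ) (U V W : Polynomial ℝ) (M N : ℕ) : ℝ :=
  2 * (ms (fun θ => Q1 W M (N + 1) ρ (gam ρ) (LB.tau ρ) (Rf ρ θ)) +
    ms (fun θ => Q2 W M (N + 1) ρ (gam ρ) (LB.tau ρ) (Rf ρ θ))) +
  (ms (fun θ => GA U (2 + 2 * Real.cos θ)) + ms (fun θ => GB V ρ (Xf ρ θ)))

/-- **the lower bound with a given cost** -/
theorem main2 (H : SY B Complex.im h w) (H' : SY B Complex.im κ v) (hBU : B ⊆ UH)
    (h0 : EX B h w (w 0)) (k0 : EX B κ v (v 0)) {ρ0 δ K : ℝ} (hδ : 0 < δ)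
    (hρ : ∀ n, δ ≤ h n / κ n ∧ h n / κ n ≤ 1 - δ)
    (hl : Tendsto (fun n => h n / κ n) atTop (𝓝 ρ0))
    (hK : ∀ ε : ℝ, 0 < ε → ∃ (U V W : Polynomial ℝ) (M N : ℕ), cst ρ0 U V W M N < K + ε ∧
      ms (fun θ => Bn U V W M N ρ0 (gam ρ0) (LB.tau ρ0) (Xf ρ0 θ)) < ε)
    {φ : ℂ → ℝ} (hφ : TF B φ) (hφ0 : ∀ z, 0 ≤ φ z) {e : ℝ} (he : 0 < e) :
    ∀ᶠ n in atTop, (1 - K) * (∫ z, φ z) - e ≤ (J4 w v φ 0 0 0 0 n).re := by
  have hρ0 : 0 < ρ0 := lt_of_lt_of_le hδ (ge_of_tendsto' hl fun n => (hρ n).1)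
  have hρ1 : ρ0 < 1 := lt_of_le_of_lt (le_of_tendsto' hl fun n => (hρ n).2) (by linarith)
  have hpos : ∀ n, 0 < h n / κ n := fun n => lt_of_lt_of_le hδ (hρ n).1
  have hlt : ∀ n, h n / κ n < 1 := fun n => lt_of_le_of_lt (hρ n).2 (by linarith)
  -- the parameters
  obtain ⟨ρ, hρ'⟩ : ∃ ρ : BS, ∀ n, ρ.1 n = h n / κ n :=
    ⟨⟨fun n => h n / κ n, 1, fun n => by rw [abs_of_pos (hpos n)]; exact (hlt n).le⟩, fun _ => rfl⟩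
  obtain ⟨γ, hγ'⟩ : ∃ γ : BS, ∀ n, γ.1 n = gam (h n / κ n) := by
    refine ⟨⟨fun n => gam (h n / κ n), 1 / δ ^ 4, fun n => ?_⟩, fun _ => rfl⟩
    show |gam (h n / κ n)| ≤ 1 / δ ^ 4
    rw [abs_of_pos (gam_pos (hpos n) (hlt n))]
    unfold gam
    have a : δ ≤ 1 - (h n / κ n) ^ 2 := by nlinarith [hpos n, hlt n, (hρ n).2]
    exact one_div_le_one_div_of_le (by positivity) (pow_le_pow_left₀ hδ.le a 4)
  obtain ⟨τ, hτ'⟩ : ∃ τ : BS, ∀ n, τ.1 n = LB.tau (h n / κ n) := by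
    refine ⟨⟨fun n => LB.tau (h n / κ n), 1 / (4 * δ), fun n => ?_⟩, fun _ => rfl⟩
    show |LB.tau (h n / κ n)| ≤ 1 / (4 * δ)
    unfold LB.tau
    rw [abs_of_pos (by have := hpos n; positivity)]
    exact one_div_le_one_div_of_le (by positivity) (by linarith [(hρ n).1])
  have hγ : γ * cc ρ ^ 2 = 1 := by
    refine BS_ext fun n => ?_
    rw [map_mul, map_pow, map_cc, map_one, vh_ap, vh_ap, hγ', hρ']
    exact gam_mul (hpos n) (hlt n)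
  have hτ : τ ^ 2 * (16 * ρ ^ 2) = 1 := by
    refine BS_ext fun n => ?_
    rw [map_mul, map_pow, map_mul, map_pow, map_ofNat, map_one, vh_ap, vh_ap, hτ', hρ']
    exact tau_mul (hpos n) (hlt n)
  obtain ⟨C, hC, hC'⟩ : ∃ C : ℝ, (∀ n, h n ≤ C * κ n) ∧ (∀ n, κ n ≤ C * h n) := by
    refine ⟨max 1 (1 / δ), fun n => ?_, fun n => ?_⟩
    · have a := H'.hpos n
      have b := (hlt n).le
      rw [div_le_iff₀ a] at b
      exact b.trans (mul_le_mul_of_nonneg_right (le_max_left _ _) a.le)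
    · have a := H'.hpos n
      have a' := H.hpos n
      have b := (hρ n).1
      rw [le_div_iff₀ a] at b
      have c : κ n ≤ 1 / δ * h n := by
        rw [one_div, ← div_eq_inv_mul, le_div_iff₀ hδ]; linarith
      exact c.trans (mul_le_mul_of_nonneg_right (le_max_right _ _) a'.le)
  -- limits of the parameters
  have l1 : Tendsto (fun n => ρ.1 n) atTop (𝓝 ρ0) := by simpa only [hρ'] using hl
  have l2 : Tendsto (fun n => γ.1 n) atTop (𝓝 (gam ρ0)) := by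
    simp only [hγ']
    have c : ContinuousAt gam ρ0 := by
      unfold gam
      refine ContinuousAt.div continuousAt_const (by fun_prop) ?_
      have := c_pos hρ0 hρ1
      positivity
    exact c.tendsto.comp hl
  have l3 : Tendsto (fun n => τ.1 n) atTop (𝓝 (LB.tau ρ0)) := by
    simp only [hτ']
    have c : ContinuousAt LB.tau ρ0 := by
      unfold LB.tau
      refine ContinuousAt.div continuousAt_const (by fun_prop) ?_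
      positivity
    exact c.tendsto.comp hl
  obtain ⟨m, hm⟩ : ∃ m : ℝ, m = ∫ z, φ z := ⟨_, rfl⟩
  have m0 : 0 ≤ m := by rw [hm]; exact integral_nonneg hφ0
  obtain ⟨KA, hKA⟩ : ∃ KA : ℝ, ∀ n, N2 A1 n = KA := ⟨_, fun n => N2_A1 n⟩
  have KA0 : 0 ≤ KA := by rw [← hKA 0]; exact N2_nonneg _ _
  obtain ⟨θ, hθ⟩ : ∃ θ : ℝ, θ = e / (4 * (2 * KA * m + 1)) := ⟨_, rfl⟩
  have hd0 : 0 < 2 * KA * m + 1 := by positivity
  have hθ0 : 0 < θ := by rw [hθ]; positivity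
  have hθe : θ / 2 * (2 * KA * m + 1) = e / 8 := by rw [hθ]; field_simp; norm_num
  obtain ⟨d, hdd⟩ : ∃ d : ℝ, d = min (e / 8) (θ * e / 4) := ⟨_, rfl⟩
  have d0 : 0 < d := by rw [hdd]; exact lt_min (by positivity) (by positivity)
  have d1 : d ≤ e / 8 := by rw [hdd]; exact min_le_left _ _
  have d2 : d ≤ θ * e / 4 := by rw [hdd]; exact min_le_right _ _
  obtain ⟨ε, hε⟩ : ∃ ε : ℝ, ε = min (e / (8 * (m + 1))) (θ * e / (8 * (m + 1))) := ⟨_, rfl⟩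
  have ε0 : 0 < ε := by rw [hε]; exact lt_min (by positivity) (by positivity)
  have ε1 : ε * m < e / 8 := by
    have h1 : ε ≤ e / (8 * (m + 1)) := by rw [hε]; exact min_le_left _ _
    have h2 : ε * m ≤ e / (8 * (m + 1)) * m := mul_le_mul_of_nonneg_right h1 m0
    have h3 : e / (8 * (m + 1)) * m < e / 8 := by
      rw [div_mul_eq_mul_div, div_lt_div_iff₀ (by positivity) (by norm_num)]
      nlinarith
    linarith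
  have ε2 : 2 * ε * m < θ * e / 4 := by
    have h1 : ε ≤ θ * e / (8 * (m + 1)) := by rw [hε]; exact min_le_right _ _
    have h2 : ε * m ≤ θ * e / (8 * (m + 1)) * m := mul_le_mul_of_nonneg_right h1 m0
    have h3 : θ * e / (8 * (m + 1)) * m < θ * e / 8 := by
      have h4 : 0 < θ * e := by positivity
      rw [div_mul_eq_mul_div, div_lt_div_iff₀ (by positivity) (by norm_num)]
      nlinarith
    linarith
  obtain ⟨U, V, W, M, N, hN1, hN2⟩ := hK ε ε0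
  have gA : ∀ n, N2 (GA U xz) n = ms (fun θ => GA U (2 + 2 * Real.cos θ)) := N2_GA U
  have mP : Tendsto (fun n => (2 * (N2 (Q1 W M (N + 1) (cs ρ) (cs γ) (cs τ) (rr ρ)) n +
      N2 (Q2 W M (N + 1) (cs ρ) (cs γ) (cs τ) (rr ρ)) n) +
      (N2 (GA U xz) n + N2 (GB V (cs ρ) (xw ρ)) n)) * m) atTop
      (𝓝 (cst ρ0 U V W M N * m)) := by
    have := ((((ms_tend (Q1_ct W M (N + 1)) l1 l2 l3).add
      (ms_tend (Q2_ct W M (N + 1)) l1 l2 l3)).const_mul 2).add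
      ((tendsto_const_nhds (x := ms (fun θ => GA U (2 + 2 * Real.cos θ)))).add
        (ms_tend (GB_ct V) l1 l2 l3))).mul_const m
    refine this.congr fun n => ?_
    rw [N2_Q1, N2_Q2, N2_GA, N2_GB]
  have mB : Tendsto (fun n => 2 * N2 (Bn U V W M N (cs ρ) (cs γ) (cs τ) (xw ρ)) n * m) atTop
      (𝓝 (2 * ms (fun θ => Bn U V W M N ρ0 (gam ρ0) (LB.tau ρ0) (Xf ρ0 θ)) * m)) := by
    have := ((ms_tend (Bn_ct U V W M N) l1 l2 l3).const_mul 2).mul_const m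
    refine this.congr fun n => ?_
    rw [N2_Bn]
  have hN1' : cst ρ0 U V W M N * m < K * m + e / 8 := by
    have := mul_le_mul_of_nonneg_right hN1.le m0
    linarith
  have hN2' : 2 * ms (fun θ => Bn U V W M N ρ0 (gam ρ0) (LB.tau ρ0) (Xf ρ0 θ)) * m < θ * e / 4 := by
    have := mul_le_mul_of_nonneg_right hN2.le m0
    linarith
  filter_upwards [mP.eventually (gt_mem_nhds hN1'), mB.eventually (gt_mem_nhds hN2'),
    core2 H H' hBU hC hC' h0 k0 hφ hφ0 ρ γ τ hρ' hγ hτ U V W M N hθ0 d0] with n h1 h2 h3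
  rw [← hm, hKA, hθe] at h3
  rw [← hm]
  have b4 : 1 / (2 * θ) * (2 * N2 (Bn U V W M N (cs ρ) (cs γ) (cs τ) (xw ρ)) n * m + d) ≤
      e / 4 := by
    have : 1 / (2 * θ) * (2 * N2 (Bn U V W M N (cs ρ) (cs γ) (cs τ) (xw ρ)) n * m + d) ≤
        1 / (2 * θ) * (2 * (θ * e / 4)) :=
      mul_le_mul_of_nonneg_left (by linarith) (by positivity)
    have e2 : 1 / (2 * θ) * (2 * (θ * e / 4)) = e / 4 := by field_simp
    linarith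
  linarith

end

end Pool.Agent.J4H76.LC
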