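import Pool.Agent.J4H76.LC.Real4

/-! The loss: continuity, and an absolute bound. -/
set_option autoImplicit false
open Filter Topology MeasureTheory

namespace Pool.Agent.J4H76.LC

noncomputable section

lemma lsc_cont : Continuous (fun q : ℝ × ℝ => lsc q.1 q.2) := by
  unfold lsc
  have c1 : Continuous (fun q : ℝ × ℝ => Real.arcsin q.1) :=
    Real.continuous_arcsin.comp continuous_fst
  have c2 : Continuous (fun q : ℝ × ℝ => Real.arcsin (q.1 * q.2)) :=
    Real.continuous_arcsin.comp (continuous_fst.mul continuous_snd)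
  have c3 : Continuous (fun q : ℝ × ℝ => Real.arcsin q.2) :=
    Real.continuous_arcsin.comp continuous_snd
  have c4 : Continuous (fun q : ℝ × ℝ => Real.arccos q.1) :=
    Real.continuous_arccos.comp continuous_fst
  exact (continuous_const.mul (c1.sub c2)).add (continuous_const.mul
    (Real.continuous_sqrt.comp ((c3.sub c2).mul c4)))

lemma lsc_one (ρ : ℝ) : 1 - lsc 1 ρ = 2 / Real.pi * Real.arcsin ρ := by
  unfold lsc
  rw [one_mul, sub_self, zero_mul, Real.sqrt_zero, Real.arcsin_one]
  have := Real.pi_pos.ne'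
  field_simp
  ring

lemma asin_s2 : Real.arcsin (√2 / 2) = Real.pi / 4 := by
  rw [← Real.sin_pi_div_four, Real.arcsin_sin] <;> linarith [Real.pi_pos]

/-- the loss is at most `3/4` for a suitable parameter -/
theorem quarter {ρ : ℝ} (h0 : 0 < ρ) (h1 : ρ < 1) : ∃ κ : ℝ, 0 ≤ κ ∧ κ ≤ 1 ∧
    1 / 4 ≤ 1 - lsc κ ρ := by
  have pp := Real.pi_pos
  obtain ⟨y, hy⟩ : ∃ y, y = Real.arcsin ρ := ⟨_, rfl⟩
  have y0 : 0 < y := by rw [hy]; exact Real.arcsin_pos.2 h0
  rcases le_or_gt (Real.pi / 8) y with h | h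
  · refine ⟨1, zero_le_one, le_rfl, ?_⟩
    rw [lsc_one, ← hy]
    have : 2 / Real.pi * (Real.pi / 8) ≤ 2 / Real.pi * y :=
      mul_le_mul_of_nonneg_left h (by positivity)
    have e : 2 / Real.pi * (Real.pi / 8) = 1 / 4 := by field_simp; norm_num
    linarith
  · have s2 : √2 ^ 2 = 2 := Real.sq_sqrt (by norm_num)
    have s0 : 0 < √2 := by positivity
    have sl : 1.414 ≤ √2 := by
      rw [show (1.414 : ℝ) = √(1.414 ^ 2) by rw [Real.sqrt_sq (by norm_num)]]
      exact Real.sqrt_le_sqrt (by norm_num)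
    have su : √2 ≤ 2 := by nlinarith
    refine ⟨√2 / 2, by positivity, by linarith, ?_⟩
    obtain ⟨z, hz⟩ : ∃ z, z = Real.arcsin (√2 / 2 * ρ) := ⟨_, rfl⟩
    have ρy : ρ = Real.sin y := by rw [hy, Real.sin_arcsin (by linarith) h1.le]
    -- `z ≥ 2 y / 3`
    have zy : 2 / 3 * y ≤ z := by
      obtain ⟨t, ht⟩ : ∃ t, t = y / 3 := ⟨_, rfl⟩
      have t0 : 0 < t := by rw [ht]; positivity
      have t1 : t ≤ 0.2 := by
        rw [ht]
        have := Real.pi_lt_four
        linarith
      have c1 : 0.98 ≤ Real.cos t := by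
        have := Real.one_sub_sq_div_two_le_cos (x := t)
        nlinarith
      have c2 := Real.cos_le_one t
      have sp : 0 < Real.sin t := Real.sin_pos_of_pos_of_lt_pi t0 (by linarith [Real.pi_gt_three])
      have key : Real.sin (2 / 3 * y) ≤ √2 / 2 * ρ := by
        rw [ρy]
        have e1 : 2 / 3 * y = 2 * t := by rw [ht]; ring
        have e2 : y = 3 * t := by rw [ht]; ring
        rw [e1, e2, Real.sin_two_mul, Real.sin_three_mul]
        have e3 : √2 / 2 * (3 * Real.sin t - 4 * Real.sin t ^ 3) =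
            Real.sin t * (√2 / 2 * (4 * Real.cos t ^ 2 - 1)) := by
          have := Real.sin_sq_add_cos_sq t
          linear_combination (-(√2 / 2 * Real.sin t * 4)) * this
        rw [e3]
        have e4 : 2 * Real.sin t * Real.cos t = Real.sin t * (2 * Real.cos t) := by ring
        rw [e4]
        refine mul_le_mul_of_nonneg_left ?_ sp.le
        have f1 : 0 ≤ 4 * Real.cos t ^ 2 - 1 := by nlinarith
        have f2 : 0.707 * (4 * Real.cos t ^ 2 - 1) ≤ √2 / 2 * (4 * Real.cos t ^ 2 - 1) :=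
          mul_le_mul_of_nonneg_right (by linarith) f1
        nlinarith
      have b1 : 2 / 3 * y = Real.arcsin (Real.sin (2 / 3 * y)) := by
        rw [Real.arcsin_sin] <;> linarith
      rw [b1, hz]
      exact Real.monotone_arcsin key
    have z0 : 0 < z := by linarith
    unfold lsc
    rw [← hz, ← hy, asin_s2, Real.arccos_eq_pi_div_two_sub_arcsin, asin_s2]
    have e5 : (y - z) * (Real.pi / 2 - Real.pi / 4) ≤ (Real.pi / 16 + z / 2) ^ 2 := by
      have : 0 ≤ (z / 2 - Real.pi / 16) ^ 2 := sq_nonneg _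
      nlinarith
    have e6 : √((y - z) * (Real.pi / 2 - Real.pi / 4)) ≤ Real.pi / 16 + z / 2 := by
      rw [← Real.sqrt_sq (show 0 ≤ Real.pi / 16 + z / 2 by positivity)]
      exact Real.sqrt_le_sqrt e5
    have e7 : 4 / Real.pi * √((y - z) * (Real.pi / 2 - Real.pi / 4)) ≤
        4 / Real.pi * (Real.pi / 16 + z / 2) := mul_le_mul_of_nonneg_left e6 (by positivity)
    have e8 : 4 / Real.pi * (Real.pi / 16 + z / 2) = 1 / 4 + 2 / Real.pi * z := by
      field_simp; ring
    have e9 : 2 / Real.pi * (Real.pi / 4 - z) = 1 / 2 - 2 / Real.pi * z := by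
      field_simp; ring
    linarith

end

end Pool.Agent.J4H76.LC
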