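import Pool.Agent.J4H76.LB.Real2
import Pool.Agent.J4H76.LC.Gen

/-! Averages over the circle. -/
set_option autoImplicit false
open Filter Topology MeasureTheory

namespace Pool.Agent.J4H76.LC

noncomputable section

open Pool.Agent.J4H76.LB
open Pool.Agent.J4H76.TP (ms Rf Xf Rf_cont Xf_cont)

/-- average over the circle -/
def av (g : ℝ → ℝ) : ℝ := 1 / (2 * Real.pi) * ∫ θ in (0 : ℝ)..(2 * Real.pi), g θ

lemma ms_av (g : ℝ → ℝ) : ms g = av (fun θ => g θ ^ 2) := rfl

lemma ae_cos (c : ℝ) : ∀ᵐ θ : ℝ, Real.cos θ ≠ c :=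
  measure_eq_zero_iff_ae_notMem.1 ((Pool.Agent.J4H76.TP.cnt c).measure_zero volume)

/-- dominated convergence -/
lemma av_dom {g : ℕ → ℝ → ℝ} {g0 : ℝ → ℝ} (hg : ∀ N, Measurable (g N)) {C c : ℝ}
    (hb : ∀ N θ, |g N θ| ≤ C)
    (h : ∀ θ, Real.cos θ ≠ c → Tendsto (fun N => g N θ) atTop (𝓝 (g0 θ))) :
    Tendsto (fun N => av (g N)) atTop (𝓝 (av g0)) := by
  refine Tendsto.const_mul _ ?_
  refine intervalIntegral.tendsto_integral_filter_of_dominated_convergence
    (fun _ => C) (Eventually.of_forall fun N => (hg N).aestronglyMeasurable)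
    (Eventually.of_forall fun N => ae_of_all _ fun θ _ => hb N θ)
    (intervalIntegrable_const) ?_
  filter_upwards [ae_cos c] with θ hθ _
  exact h θ hθ

lemma bdd_int {g : ℝ → ℝ} (hg : Measurable g) {C : ℝ} (hb : ∀ θ, |g θ| ≤ C) :
    IntervalIntegrable g volume 0 (2 * Real.pi) := by
  refine (intervalIntegrable_const (c := C)).mono_fun' hg.aestronglyMeasurable ?_
  exact Eventually.of_forall fun θ => hb θ

lemma av_mono {g g' : ℝ → ℝ} (hg : Measurable g) (hg' : Measurable g') {C c : ℝ}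
    (hb : ∀ θ, |g θ| ≤ C) (hb' : ∀ θ, |g' θ| ≤ C) (h : ∀ θ, Real.cos θ ≠ c → g θ ≤ g' θ) :
    av g ≤ av g' := by
  refine mul_le_mul_of_nonneg_left ?_ (by positivity)
  refine intervalIntegral.integral_mono_ae (by positivity) (bdd_int hg hb) (bdd_int hg' hb') ?_
  filter_upwards [ae_cos c] with θ hθ
  exact h θ hθ

lemma cos_iff' {s θ : ℝ} (h0 : -1 ≤ s) (h1 : s ≤ 1) (t0 : 0 < θ) (t1 : θ ≤ 2 * Real.pi) :
    Real.cos θ < -s ↔ θ ∈ Set.Ioo (Real.pi - Real.arccos s) (Real.pi + Real.arccos s) := by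
  have e1 : Real.cos θ = - Real.cos |θ - Real.pi| := by
    rw [Real.cos_abs, Real.cos_sub_pi, neg_neg]
  have e2 : Real.cos (Real.arccos s) = s := Real.cos_arccos h0 h1
  have k1 : |θ - Real.pi| ≤ Real.pi := by rw [abs_le]; constructor <;> linarith
  have k2 := Real.arccos_nonneg s
  have k3 := Real.arccos_le_pi s
  have e3 : θ ∈ Set.Ioo (Real.pi - Real.arccos s) (Real.pi + Real.arccos s) ↔
      |θ - Real.pi| < Real.arccos s := by
    rw [abs_lt, Set.mem_Ioo]
    constructor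
    · rintro ⟨a, b⟩; constructor <;> linarith
    · rintro ⟨a, b⟩; constructor <;> linarith
  rw [e3, e1]
  constructor
  · intro h
    have h2 : Real.cos (Real.arccos s) < Real.cos |θ - Real.pi| := by rw [e2]; linarith
    exact (Real.strictAntiOn_cos.lt_iff_gt ⟨k2, k3⟩ ⟨abs_nonneg _, k1⟩).1 h2
  · intro h
    have h2 : Real.cos (Real.arccos s) < Real.cos |θ - Real.pi| :=
      Real.strictAntiOn_cos ⟨abs_nonneg _, k1⟩ ⟨k2, k3⟩ h
    rw [e2] at h2
    linarith

/-- indicator of `cos θ < -s` -/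
def ind (s θ : ℝ) : ℝ := if Real.cos θ < -s then 1 else 0

lemma ind_meas (s : ℝ) : Measurable (ind s) :=
  Measurable.ite (measurableSet_lt Real.measurable_cos measurable_const) measurable_const
    measurable_const

lemma ind_bd (s θ : ℝ) : |ind s θ| ≤ 1 := by
  unfold ind; split_ifs <;> simp

lemma ind_nn (s θ : ℝ) : 0 ≤ ind s θ := by
  unfold ind; split_ifs <;> simp

lemma ind_mono {s s' θ : ℝ} (h : s' ≤ s) : ind s θ ≤ ind s' θ := by
  unfold ind
  split_ifs with h1 h2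
  · exact le_rfl
  · exact absurd (show Real.cos θ < -s' by linarith) h2
  · exact zero_le_one
  · exact le_rfl

lemma av_ind {s : ℝ} (h0 : -1 ≤ s) (h1 : s ≤ 1) : av (ind s) = Real.arccos s / Real.pi := by
  obtain ⟨a, ha⟩ : ∃ a, a = Real.arccos s := ⟨_, rfl⟩
  have a0 : 0 ≤ a := by rw [ha]; exact Real.arccos_nonneg s
  have a1 : a ≤ Real.pi := by rw [ha]; exact Real.arccos_le_pi s
  have pp := Real.pi_pos
  have e1 : ∫ θ in (0 : ℝ)..(2 * Real.pi), ind s θ = ∫ θ in (0 : ℝ)..(2 * Real.pi),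
      Set.indicator (Set.Ioo (Real.pi - a) (Real.pi + a)) (fun _ => (1 : ℝ)) θ := by
    refine intervalIntegral.integral_congr_ae (ae_of_all _ fun θ hθ => ?_)
    rw [Set.uIoc_of_le (by positivity)] at hθ
    have hc := cos_iff' h0 h1 hθ.1 hθ.2
    rw [← ha] at hc
    unfold ind
    by_cases h : Real.cos θ < -s
    · rw [if_pos h, Set.indicator_of_mem (hc.1 h)]
    · rw [if_neg h, Set.indicator_of_notMem fun h2 => h (hc.2 h2)]
  have val : ∫ θ in (0 : ℝ)..(2 * Real.pi),
      Set.indicator (Set.Ioo (Real.pi - a) (Real.pi + a)) (fun _ => (1 : ℝ)) θ = 2 * a := by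
    rw [intervalIntegral.integral_of_le (by positivity), setIntegral_indicator measurableSet_Ioo]
    have e : Set.Ioc 0 (2 * Real.pi) ∩ Set.Ioo (Real.pi - a) (Real.pi + a) =
        Set.Ioo (Real.pi - a) (Real.pi + a) := by
      refine Set.inter_eq_self_of_subset_right fun θ h => ?_
      exact ⟨by linarith [h.1], by linarith [h.2]⟩
    rw [e, setIntegral_const]
    simp only [smul_eq_mul, mul_one]
    rw [Measure.real, Real.volume_Ioo, ENNReal.toReal_ofReal (by linarith)]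
    ring
  unfold av
  rw [e1, val, ha]; field_simp

lemma av_add {g g' : ℝ → ℝ} (hg : Measurable g) (hg' : Measurable g') {C : ℝ}
    (hb : ∀ θ, |g θ| ≤ C) (hb' : ∀ θ, |g' θ| ≤ C) :
    av (fun θ => g θ + g' θ) = av g + av g' := by
  unfold av
  rw [intervalIntegral.integral_add (bdd_int hg hb) (bdd_int hg' hb'), mul_add]

lemma av_sub {g g' : ℝ → ℝ} (hg : Measurable g) (hg' : Measurable g') {C : ℝ}
    (hb : ∀ θ, |g θ| ≤ C) (hb' : ∀ θ, |g' θ| ≤ C) :
    av (fun θ => g θ - g' θ) = av g - av g' := by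
  unfold av
  rw [intervalIntegral.integral_sub (bdd_int hg hb) (bdd_int hg' hb'), mul_sub]

lemma av_mul (c : ℝ) (g : ℝ → ℝ) : av (fun θ => c * g θ) = c * av g := by
  unfold av
  rw [intervalIntegral.integral_const_mul]; ring

lemma av_one : av (fun _ => 1) = 1 := by
  unfold av
  rw [intervalIntegral.integral_const]
  have := Real.pi_pos.ne'
  simp only [smul_eq_mul, sub_zero, mul_one]
  field_simp

lemma av_zero : av (fun _ => 0) = 0 := by
  unfold av
  rw [intervalIntegral.integral_zero, mul_zero]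

/-- polynomial approximation -/
lemma wst {a b : ℝ} {f : ℝ → ℝ} (hf : ContinuousOn f (Set.Icc a b)) :
    ∃ P : ℕ → Polynomial ℝ, (∀ x ∈ Set.Icc a b, Tendsto (fun j => (P j).eval x) atTop (𝓝 (f x))) ∧
      ∃ C : ℝ, ∀ j, ∀ x ∈ Set.Icc a b, |(P j).eval x| ≤ C := by
  have h : ∀ j : ℕ, ∃ p : Polynomial ℝ, ∀ x ∈ Set.Icc a b, |p.eval x - f x| < 1 / ((j : ℝ) + 1) :=
    fun j => exists_polynomial_near_of_continuousOn a b f hf _ (by positivity)
  choose P hP using h
  obtain ⟨C, hC⟩ := isCompact_Icc.exists_bound_of_continuousOn hf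
  refine ⟨P, fun x hx => ?_, C + 1, fun j x hx => ?_⟩
  · rw [tendsto_iff_norm_sub_tendsto_zero]
    refine squeeze_zero (fun j => norm_nonneg _) (fun j => ?_)
      tendsto_one_div_add_atTop_nhds_zero_nat
    rw [Real.norm_eq_abs]
    exact (hP j x hx).le
  · have h1 := hP j x hx
    have h2 := hC x hx
    rw [Real.norm_eq_abs] at h2
    have h3 : 1 / ((j : ℝ) + 1) ≤ 1 := by
      rw [div_le_one (by positivity)]
      have : (0 : ℝ) ≤ j := Nat.cast_nonneg j
      linarith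
    have h4 := abs_sub_abs_le_abs_sub ((P j).eval x) (f x)
    linarith

lemma pbd (P : Polynomial ℝ) (a b : ℝ) : ∃ C : ℝ, ∀ x ∈ Set.Icc a b, |P.eval x| ≤ C := by
  obtain ⟨C, hC⟩ := (isCompact_Icc (a := a) (b := b)).exists_bound_of_continuousOn
    P.continuous.continuousOn
  exact ⟨C, fun x hx => by rw [← Real.norm_eq_abs]; exact hC x hx⟩

end

end Pool.Agent.J4H76.LC
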