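import Pool.Agent.J4H76.LC.Real1

/-! Limits of the costs. -/
set_option autoImplicit false
set_option linter.unusedVariables false
set_option linter.unusedSectionVars false
open Filter Topology MeasureTheory

namespace Pool.Agent.J4H76.LC

noncomputable section

open Pool.Agent.J4H76.LB
open Pool.Agent.J4H76.TP (ms Rf Xf Rf_cont Xf_cont)

/-- the smaller root -/
def rs (ρ x : ℝ) : ℝ := (ss ρ - x - √(dg ρ x)) / 2

lemma rs_cont (ρ : ℝ) : Continuous (rs ρ) := by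
  unfold rs ss dg
  fun_prop

def cw (w : ℝ → ℝ) (ρ r : ℝ) : ℝ := 1 - Zp ρ r * w r
def twf (w : ℝ → ℝ) (ρ x r : ℝ) : ℝ := 2 * r ^ 4 * w r - x ^ 2 * dg ρ x * r ^ 8 * w r ^ 2
def Lf (u v w : ℝ → ℝ) (ρ x : ℝ) : ℝ :=
  -(x * (4 * ρ ^ 2 - x)) * (twf w ρ x (rs ρ x) + u x * v x)

lemma ae_real (r : ℝ) (W : Polynomial ℝ) : Polynomial.aeval r W = W.eval r := by
  rw [Polynomial.coe_aeval_eq_eval]

lemma cW_real (W : Polynomial ℝ) (ρ r : ℝ) : cW W ρ r = cw (fun r => W.eval r) ρ r := by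
  unfold cW cw; rw [ae_real]

lemma tw_real (W : Polynomial ℝ) (ρ x r : ℝ) : tw W ρ x r = twf (fun r => W.eval r) ρ x r := by
  unfold tw twf; rw [ae_real]

lemma Zp_cont (ρ : ℝ) : Continuous (fun r => Zp ρ r) := by
  unfold Zp qq ss cc; fun_prop

section
variable {ρ : ℝ} (h0 : 0 < ρ) (h1 : ρ < 1)
include h0 h1

lemma rs_spec {x : ℝ} (x0 : 0 ≤ x) (x1 : x ≤ 4 * ρ ^ 2) : ∃ r1 : ℝ, rs ρ x ≤ r1 ∧
    r1 + rs ρ x = ss ρ - x ∧ r1 * rs ρ x = cc ρ ∧ (1 - ρ) ^ 2 ≤ r1 ∧ r1 ≤ (1 + ρ) ^ 2 ∧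
    (1 - ρ) ^ 2 ≤ rs ρ x ∧ rs ρ x ≤ (1 + ρ) ^ 2 := by
  obtain ⟨r1, r2, hr, hs, hp, a1, a2, a3, a4⟩ := roots2 h0 h1 x0 x1
  have hd : (r1 - r2) ^ 2 = dg ρ x := by
    have : (r1 - r2) ^ 2 = (r1 + r2) ^ 2 - 4 * (r1 * r2) := by ring
    rw [this, hs, hp]; unfold ss cc dg; ring
  have e : rs ρ x = r2 := by
    unfold rs
    rw [← hd, Real.sqrt_sq (by linarith), ← hs]; ring
  rw [e]
  exact ⟨r1, hr, hs, hp, a1, a2, a3, a4⟩

lemma roots_lim {M : ℕ} (hM : ∀ r : ℝ, (1 - ρ) ^ 2 ≤ r → r ≤ (1 + ρ) ^ 2 →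
    1 / 2 ≤ hh M ρ (gam ρ) r ∧ hh M ρ (gam ρ) r ≤ 1) {x r1 r2 : ℝ} (x0 : 0 < x)
    (x1 : x < 4 * ρ ^ 2) (hr : r2 ≤ r1) (hs : r1 + r2 = ss ρ - x) (hp : r1 * r2 = cc ρ)
    (a1 : (1 - ρ) ^ 2 ≤ r1) (a2 : r1 ≤ (1 + ρ) ^ 2) (a3 : (1 - ρ) ^ 2 ≤ r2)
    (a4 : r2 ≤ (1 + ρ) ^ 2) :
    Tendsto (fun N => ff (it (N + 1) (kp M ρ (gam ρ) (tau ρ) r1))) atTop (𝓝 0) ∧
    Tendsto (fun N => ff (it (N + 1) (kp M ρ (gam ρ) (tau ρ) r2))) atTop (𝓝 1) := by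
  have hd : 0 < dg ρ x := by
    unfold dg
    exact mul_pos (by nlinarith) (by linarith)
  have hne : r2 < r1 := by
    refine lt_of_le_of_ne hr fun h => ?_
    have : (r1 - r2) ^ 2 = dg ρ x := by
      have e : (r1 - r2) ^ 2 = (r1 + r2) ^ 2 - 4 * (r1 * r2) := by ring
      rw [e, hs, hp]; unfold ss cc dg; ring
    rw [h, sub_self] at this
    norm_num at this
    linarith
  have c0 := c_pos h0 h1
  have m0 : 0 < (1 - ρ) ^ 2 := by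
    have := sub_pos.2 h1
    positivity
  have p2 : 0 < r2 := by linarith
  have g1 : 1 - ρ ^ 2 < r1 := by
    by_contra h
    push Not at h
    have : r1 * r2 < (1 - ρ ^ 2) ^ 2 := by nlinarith
    rw [hp] at this
    unfold cc at this
    linarith
  have g2 : r2 < 1 - ρ ^ 2 := by
    by_contra h
    push Not at h
    have : (1 - ρ ^ 2) ^ 2 < r1 * r2 := by nlinarith
    rw [hp] at this
    unfold cc at this
    linarith
  have s1 := kp_pos h0 h1 a1 g1 (hM r1 a1 a2).1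
  have s2 := kp_neg h0 h1 a3 g2 (hM r2 a3 a4).1
  have b1 := abs_le.1 (kp_abs h0 h1 a1 a2 (hM r1 a1 a2))
  have b2 := abs_le.1 (kp_abs h0 h1 a3 a4 (hM r2 a3 a4))
  exact ⟨ff_pos_lim h0 h1 s1 b1.2, ff_neg_lim h0 h1 s2 b2.1⟩

lemma ff_it_bd {M : ℕ} (hM : ∀ r : ℝ, (1 - ρ) ^ 2 ≤ r → r ≤ (1 + ρ) ^ 2 →
    1 / 2 ≤ hh M ρ (gam ρ) r ∧ hh M ρ (gam ρ) r ≤ 1) {r : ℝ}
    (a1 : (1 - ρ) ^ 2 ≤ r) (a2 : r ≤ (1 + ρ) ^ 2) (N : ℕ) :
    |ff (it N (kp M ρ (gam ρ) (tau ρ) r))| ≤ 1 := by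
  rw [abs_of_nonneg (ff_nn _)]
  have b1 := abs_le.1 (kp_abs h0 h1 a1 a2 (hM _ a1 a2))
  obtain ⟨κ, hκ⟩ : ∃ κ, κ = kp M ρ (gam ρ) (tau ρ) r := ⟨_, rfl⟩
  rw [← hκ] at b1 ⊢
  rcases le_total 0 κ with h | h
  · have i := it_bd h b1.2 N
    exact ff_le (by linarith [i.1]) i.2
  · have i := it_bd (X := -κ) (by linarith) (by linarith [b1.1]) N
    have e : it N κ = - it N (-κ) := by rw [it_neg, neg_neg]
    rw [e]
    exact ff_le (by linarith [i.2]) (by linarith [i.1])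

lemma Rf_mem (θ : ℝ) : (1 - ρ) ^ 2 ≤ Rf ρ θ ∧ Rf ρ θ ≤ (1 + ρ) ^ 2 := by
  unfold Rf
  have a := Real.cos_le_one θ
  have b := Real.neg_one_le_cos θ
  constructor <;> nlinarith

lemma Xf_mem (θ : ℝ) : 0 ≤ Xf ρ θ ∧ Xf ρ θ ≤ 4 * ρ ^ 2 := by
  unfold Xf
  have a := Real.cos_le_one θ
  have b := Real.neg_one_le_cos θ
  have c : 0 ≤ ρ ^ 2 := sq_nonneg _
  constructor
  · exact mul_nonneg c (by linarith)
  · nlinarith

/-- the first cost in the limit -/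
lemma lim_Q {M : ℕ} (hM : ∀ r : ℝ, (1 - ρ) ^ 2 ≤ r → r ≤ (1 + ρ) ^ 2 →
    1 / 2 ≤ hh M ρ (gam ρ) r ∧ hh M ρ (gam ρ) r ≤ 1) (W : Polynomial ℝ) :
    Tendsto (fun N : ℕ => ms (fun θ => Q1 W M (N + 1) ρ (gam ρ) (tau ρ) (Rf ρ θ)) +
      ms (fun θ => Q2 W M (N + 1) ρ (gam ρ) (tau ρ) (Rf ρ θ))) atTop
      (𝓝 (av fun θ => ind ρ θ * cw (fun r => W.eval r) ρ (Rf ρ θ) ^ 2)) := by
  have cy : Continuous (fun θ : ℝ => ((ρ, gam ρ, tau ρ, θ) : YY)) := by fun_prop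
  have ct1 : ∀ N, Continuous (fun θ => P1 M (N + 1) ρ (gam ρ) (tau ρ) (Rf ρ θ)) := fun N =>
    (P1_ct M (N + 1)).comp cy
  have ct2 : ∀ N, Continuous (fun θ => P2 M (N + 1) ρ (gam ρ) (tau ρ) (Rf ρ θ)) := fun N =>
    (P2_ct M (N + 1)).comp cy
  have cr : Continuous (fun θ => Rf ρ θ) := by unfold Rf; fun_prop
  have cc1 : Continuous (fun θ => cw (fun r => W.eval r) ρ (Rf ρ θ)) := by
    unfold cw
    exact continuous_const.sub (((Zp_cont ρ).comp cr).mul (W.continuous.comp cr))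
  obtain ⟨C, hC⟩ : ∃ C : ℝ, ∀ θ, |cw (fun r => W.eval r) ρ (Rf ρ θ)| ≤ C := by
    have cc2 : Continuous (fun r => cw (fun r => W.eval r) ρ r) := by
      unfold cw
      exact continuous_const.sub ((Zp_cont ρ).mul W.continuous)
    obtain ⟨C, hC⟩ := (isCompact_Icc (a := (1 - ρ) ^ 2)
      (b := (1 + ρ) ^ 2)).exists_bound_of_continuousOn cc2.continuousOn
    exact ⟨C, fun θ => by rw [← Real.norm_eq_abs]; exact hC _ (Rf_mem h0 h1 θ)⟩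
  have e : ∀ N θ, Q1 W M (N + 1) ρ (gam ρ) (tau ρ) (Rf ρ θ) ^ 2 +
      Q2 W M (N + 1) ρ (gam ρ) (tau ρ) (Rf ρ θ) ^ 2 =
      ff (it (N + 1) (kp M ρ (gam ρ) (tau ρ) (Rf ρ θ))) *
        cw (fun r => W.eval r) ρ (Rf ρ θ) ^ 2 := by
    intro N θ
    unfold Q1 Q2
    rw [cW_real, ← sg_it, ← P_sq]; ring
  have key : Tendsto (fun N : ℕ => av (fun θ =>
      ff (it (N + 1) (kp M ρ (gam ρ) (tau ρ) (Rf ρ θ))) *
        cw (fun r => W.eval r) ρ (Rf ρ θ) ^ 2)) atTop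
      (𝓝 (av fun θ => ind ρ θ * cw (fun r => W.eval r) ρ (Rf ρ θ) ^ 2)) := by
    refine av_dom (C := C ^ 2) (c := -ρ) (fun N => ?_) (fun N θ => ?_) (fun θ hθ => ?_)
    · have e2 : (fun θ => ff (it (N + 1) (kp M ρ (gam ρ) (tau ρ) (Rf ρ θ))) *
          cw (fun r => W.eval r) ρ (Rf ρ θ) ^ 2) = fun θ =>
          (P1 M (N + 1) ρ (gam ρ) (tau ρ) (Rf ρ θ) ^ 2 +
          P2 M (N + 1) ρ (gam ρ) (tau ρ) (Rf ρ θ) ^ 2) *
          cw (fun r => W.eval r) ρ (Rf ρ θ) ^ 2 := by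
        funext θ; rw [P_sq, sg_it]
      rw [e2]
      exact ((((ct1 N).pow 2).add ((ct2 N).pow 2)).mul (cc1.pow 2)).measurable
    · rw [abs_mul, abs_of_nonneg (sq_nonneg (cw (fun r => W.eval r) ρ (Rf ρ θ)))]
      have a1 := ff_it_bd h0 h1 hM (Rf_mem h0 h1 θ).1 (Rf_mem h0 h1 θ).2 (N + 1)
      have a2 : cw (fun r => W.eval r) ρ (Rf ρ θ) ^ 2 ≤ C ^ 2 := by
        rw [← sq_abs]
        exact pow_le_pow_left₀ (abs_nonneg _) (hC θ) 2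
      calc _ ≤ 1 * C ^ 2 := mul_le_mul a1 a2 (sq_nonneg _) zero_le_one
        _ = _ := one_mul _
    · refine Tendsto.mul_const _ ?_
      have b1 := abs_le.1 (kp_abs h0 h1 (Rf_mem h0 h1 θ).1 (Rf_mem h0 h1 θ).2
        (hM _ (Rf_mem h0 h1 θ).1 (Rf_mem h0 h1 θ).2))
      unfold ind
      rcases lt_trichotomy (Real.cos θ) (-ρ) with h | h | h
      · rw [if_pos h]
        have hr : Rf ρ θ < 1 - ρ ^ 2 := by unfold Rf; nlinarith
        exact ff_neg_lim h0 h1 (kp_neg h0 h1 (Rf_mem h0 h1 θ).1 hr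
          (hM _ (Rf_mem h0 h1 θ).1 (Rf_mem h0 h1 θ).2).1) b1.1
      · exact absurd h hθ
      · rw [if_neg (by linarith)]
        have hr : 1 - ρ ^ 2 < Rf ρ θ := by unfold Rf; nlinarith
        exact ff_pos_lim h0 h1 (kp_pos h0 h1 (Rf_mem h0 h1 θ).1 hr
          (hM _ (Rf_mem h0 h1 θ).1 (Rf_mem h0 h1 θ).2).1) b1.2
  refine key.congr fun N => ?_
  simp only [← e]
  have cq1 : Continuous (fun θ => Q1 W M (N + 1) ρ (gam ρ) (tau ρ) (Rf ρ θ)) := by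
    have : (fun θ => Q1 W M (N + 1) ρ (gam ρ) (tau ρ) (Rf ρ θ)) = fun θ =>
        P1 M (N + 1) ρ (gam ρ) (tau ρ) (Rf ρ θ) * cw (fun r => W.eval r) ρ (Rf ρ θ) := by
      funext θ; unfold Q1; rw [cW_real]
    rw [this]; exact (ct1 N).mul cc1
  have cq2 : Continuous (fun θ => Q2 W M (N + 1) ρ (gam ρ) (tau ρ) (Rf ρ θ)) := by
    have : (fun θ => Q2 W M (N + 1) ρ (gam ρ) (tau ρ) (Rf ρ θ)) = fun θ =>
        P2 M (N + 1) ρ (gam ρ) (tau ρ) (Rf ρ θ) * cw (fun r => W.eval r) ρ (Rf ρ θ) := by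
      funext θ; unfold Q2; rw [cW_real]
    rw [this]; exact (ct2 N).mul cc1
  have ia := intervalIntegral.integral_add (a := 0) (b := 2 * Real.pi) (μ := volume)
    ((cq1.pow 2).intervalIntegrable _ _) ((cq2.pow 2).intervalIntegrable _ _)
  unfold av ms
  rw [← mul_add]
  congr 1

set_option maxRecDepth 10000 in
/-- the error in the limit -/
lemma lim_B {M : ℕ} (hM : ∀ r : ℝ, (1 - ρ) ^ 2 ≤ r → r ≤ (1 + ρ) ^ 2 →
    1 / 2 ≤ hh M ρ (gam ρ) r ∧ hh M ρ (gam ρ) r ≤ 1) (U V W : Polynomial ℝ) :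
    Tendsto (fun N : ℕ => ms (fun θ => Bn U V W M N ρ (gam ρ) (tau ρ) (Xf ρ θ))) atTop
      (𝓝 (av fun θ => Lf (fun x => U.eval x) (fun x => V.eval x) (fun x => W.eval x) ρ
        (Xf ρ θ) ^ 2)) := by
  have hb4 : (1 + ρ) ^ 2 ≤ 4 := by nlinarith
  have h4 : 4 * ρ ^ 2 ≤ 4 := by nlinarith
  obtain ⟨C0, hC0⟩ := Bg_bd h0 h1 hM
  obtain ⟨CU, hCU⟩ := pbd U 0 4
  obtain ⟨CV, hCV⟩ := pbd V 0 4
  obtain ⟨Ct, hCt⟩ : ∃ Ct : ℝ, ∀ x ∈ Set.Icc (0 : ℝ) 4, ∀ r ∈ Set.Icc (0 : ℝ) 4,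
      |twf (fun x => W.eval x) ρ x r| ≤ Ct := by
    have ct : Continuous (fun q : ℝ × ℝ => twf (fun x => W.eval x) ρ q.1 q.2) := by
      unfold twf dg
      have c1 : Continuous (fun q : ℝ × ℝ => W.eval q.2) := W.continuous.comp continuous_snd
      fun_prop
    obtain ⟨C, hC⟩ := ((isCompact_Icc (a := (0 : ℝ)) (b := 4)).prod
      (isCompact_Icc (a := (0 : ℝ)) (b := 4))).exists_bound_of_continuousOn ct.continuousOn
    exact ⟨C, fun x hx r hr => by rw [← Real.norm_eq_abs]; exact hC (x, r) ⟨hx, hr⟩⟩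
  have CU0 : 0 ≤ CU := (abs_nonneg _).trans (hCU 0 ⟨le_rfl, by norm_num⟩)
  have C00 : 0 ≤ C0 := (abs_nonneg _).trans (hC0 0 0 le_rfl (by positivity))
  have Ct0 : 0 ≤ Ct := (abs_nonneg _).trans (hCt 0 ⟨le_rfl, by norm_num⟩ 0 ⟨le_rfl, by norm_num⟩)
  have rel : ∀ (N : ℕ) (x : ℝ), 0 ≤ x → x ≤ 4 * ρ ^ 2 → ∃ r1 : ℝ, rs ρ x ≤ r1 ∧
      r1 + rs ρ x = ss ρ - x ∧ r1 * rs ρ x = cc ρ ∧ (1 - ρ) ^ 2 ≤ r1 ∧ r1 ≤ (1 + ρ) ^ 2 ∧
      (1 - ρ) ^ 2 ≤ rs ρ x ∧ rs ρ x ≤ (1 + ρ) ^ 2 ∧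
      Tg W M N ρ (gam ρ) (tau ρ) x =
        ff (it (N + 1) (kp M ρ (gam ρ) (tau ρ) r1)) * twf (fun x => W.eval x) ρ x r1 +
        ff (it (N + 1) (kp M ρ (gam ρ) (tau ρ) (rs ρ x))) *
          twf (fun x => W.eval x) ρ x (rs ρ x) := by
    intro N x x0 x1
    obtain ⟨r1, hr, hs, hp, a1, a2, a3, a4⟩ := rs_spec h0 h1 x0 x1
    refine ⟨r1, hr, hs, hp, a1, a2, a3, a4, ?_⟩
    rw [← Tg_root hs hp W M N, sg_it, sg_it, tw_real, tw_real]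
  have bd : ∀ (N : ℕ) (x : ℝ), 0 ≤ x → x ≤ 4 * ρ ^ 2 →
      |Bn U V W M N ρ (gam ρ) (tau ρ) x| ≤ C0 + 16 * (2 * Ct + CU * CV) := by
    intro N x x0 x1
    obtain ⟨r1, hr, hs, hp, a1, a2, a3, a4, hT⟩ := rel N x x0 x1
    have m0 : 0 ≤ (1 - ρ) ^ 2 := sq_nonneg _
    have t1 := hCt x ⟨x0, by linarith⟩ r1 ⟨by linarith, by linarith⟩
    have t2 := hCt x ⟨x0, by linarith⟩ (rs ρ x) ⟨by linarith, by linarith⟩
    have f1 := ff_it_bd h0 h1 hM a1 a2 (N + 1)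
    have f2 := ff_it_bd h0 h1 hM a3 a4 (N + 1)
    have u1 := hCU x ⟨x0, by linarith⟩
    have v1 := hCV x ⟨x0, by linarith⟩
    have b1 : |Tg W M N ρ (gam ρ) (tau ρ) x| ≤ 2 * Ct := by
      rw [hT]
      refine (abs_add_le _ _).trans ?_
      rw [abs_mul, abs_mul]
      have i1 := mul_le_mul f1 t1 (abs_nonneg _) zero_le_one
      have i2 := mul_le_mul f2 t2 (abs_nonneg _) zero_le_one
      linarith
    have b2 : |U.eval x * V.eval x| ≤ CU * CV := by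
      rw [abs_mul]; exact mul_le_mul u1 v1 (abs_nonneg _) CU0
    have b3 : |x * (4 * ρ ^ 2 - x)| ≤ 16 := by
      rw [abs_of_nonneg (mul_nonneg x0 (by linarith))]
      nlinarith
    unfold Bn
    rw [ae_real, ae_real]
    refine (abs_sub _ _).trans ?_
    rw [abs_mul]
    have b4 := hC0 N x x0 x1
    have b5 : |x * (4 * ρ ^ 2 - x)| * |Tg W M N ρ (gam ρ) (tau ρ) x + U.eval x * V.eval x| ≤
        16 * (2 * Ct + CU * CV) := by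
      refine mul_le_mul b3 ((abs_add_le _ _).trans (by linarith)) (abs_nonneg _) (by norm_num)
    linarith
  have key : Tendsto (fun N : ℕ => av (fun θ =>
      Bn U V W M N ρ (gam ρ) (tau ρ) (Xf ρ θ) ^ 2)) atTop
      (𝓝 (av fun θ => Lf (fun x => U.eval x) (fun x => V.eval x) (fun x => W.eval x) ρ
        (Xf ρ θ) ^ 2)) := by
    refine av_dom (C := (C0 + 16 * (2 * Ct + CU * CV)) ^ 2) (c := 2) (fun N => ?_)
      (fun N θ => ?_) (fun θ _ => ?_)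
    · have cn : Continuous (fun θ => Bn U V W M N ρ (gam ρ) (tau ρ) (Xf ρ θ)) := by
        obtain ⟨cX', hcX⟩ : ∃ G : C(ℝ, ℝ), G = ⟨fun θ => Xf ρ θ, by unfold Xf; fun_prop⟩ := ⟨_, rfl⟩
        obtain ⟨G, hG⟩ : ∃ G : C(ℝ, ℝ), G = Bn U V W M N (algebraMap ℝ C(ℝ, ℝ) ρ)
          (algebraMap ℝ C(ℝ, ℝ) (gam ρ)) (algebraMap ℝ C(ℝ, ℝ) (tau ρ)) cX' := ⟨_, rfl⟩
        have h : (fun θ => Bn U V W M N ρ (gam ρ) (tau ρ) (Xf ρ θ)) = G := by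
          funext θ
          rw [hG]
          have h2 := map_Bn (ContinuousMap.evalAlgHom ℝ ℝ θ) U V W M N
            (algebraMap ℝ C(ℝ, ℝ) ρ) (algebraMap ℝ C(ℝ, ℝ) (gam ρ))
            (algebraMap ℝ C(ℝ, ℝ) (tau ρ)) cX'
          have h3 : (ContinuousMap.evalAlgHom ℝ ℝ θ) cX' = Xf ρ θ := by rw [hcX]; rfl
          rw [AlgHom.commutes, AlgHom.commutes, AlgHom.commutes, h3] at h2
          exact h2.symm
        rw [h]; exact ContinuousMap.continuous _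
      exact (cn.pow 2).measurable
    · rw [abs_of_nonneg (sq_nonneg _), ← sq_abs]
      exact pow_le_pow_left₀ (abs_nonneg _) (bd N _ (Xf_mem h0 h1 θ).1 (Xf_mem h0 h1 θ).2) 2
    · refine Tendsto.pow ?_ 2
      obtain ⟨x0, x1⟩ := Xf_mem h0 h1 θ
      obtain ⟨x, hx⟩ : ∃ x, x = Xf ρ θ := ⟨_, rfl⟩
      rw [← hx] at x0 x1 ⊢
      have l1 := Bg_lim h0 h1 hM x0 x1
      rcases x0.eq_or_lt with hx0 | hx0
      · refine tendsto_const_nhds.congr fun N => ?_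
        unfold Bn Bg Lf
        rw [← hx0]; ring
      rcases x1.eq_or_lt with hx1 | hx1
      · refine tendsto_const_nhds.congr fun N => ?_
        unfold Bn Bg Lf
        rw [hx1]; ring
      have l2 : Tendsto (fun N => Tg W M N ρ (gam ρ) (tau ρ) x) atTop
          (𝓝 (0 * twf (fun x => W.eval x) ρ x (ss ρ - x - rs ρ x) +
            1 * twf (fun x => W.eval x) ρ x (rs ρ x))) := by
        obtain ⟨r1, hr, hs, hp, a1, a2, a3, a4⟩ := rs_spec h0 h1 x0 x1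
        obtain ⟨k1, k2⟩ := roots_lim h0 h1 hM hx0 hx1 hr hs hp a1 a2 a3 a4
        have er : ss ρ - x - rs ρ x = r1 := by linarith
        rw [er]
        refine ((k1.mul_const _).add (k2.mul_const _)).congr fun N => ?_
        rw [← Tg_root hs hp W M N, sg_it, sg_it, tw_real, tw_real]
      have l3 := l1.sub ((l2.add_const (U.eval x * V.eval x)).const_mul (x * (4 * ρ ^ 2 - x)))
      have e1 : 0 - x * (4 * ρ ^ 2 - x) * (0 * twf (fun x => W.eval x) ρ x (ss ρ - x - rs ρ x) +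
            1 * twf (fun x => W.eval x) ρ x (rs ρ x) + U.eval x * V.eval x) =
          Lf (fun x => U.eval x) (fun x => V.eval x) (fun x => W.eval x) ρ x := by
        unfold Lf; ring
      rw [e1] at l3
      refine l3.congr fun N => ?_
      unfold Bn
      rw [ae_real, ae_real]
  exact key

end

end

end Pool.Agent.J4H76.LC
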