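import Pool.Agent.J4H76.LC.Core
import Pool.Agent.J4H76.LC.Real2

/-! Continuous symbols. -/
set_option autoImplicit false
set_option linter.unusedVariables false
set_option linter.unusedSectionVars false
open Filter Topology MeasureTheory

namespace Pool.Agent.J4H76.LC

noncomputable section

open Pool.Agent.J4H76.LB
open Pool.Agent.J4H76.TP (ms Rf Xf Rf_cont Xf_cont)

/-- the cost of continuous symbols -/
def cf (u v w : ℝ → ℝ) (ρ : ℝ) : ℝ :=
  2 * av (fun θ => ind ρ θ * cw w ρ (Rf ρ θ) ^ 2) +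
  (av (fun θ => ((2 + 2 * Real.cos θ) * (4 - (2 + 2 * Real.cos θ)) *
    u (2 + 2 * Real.cos θ)) ^ 2) +
  av (fun θ => (Xf ρ θ * (4 * ρ ^ 2 - Xf ρ θ) * v (Xf ρ θ)) ^ 2))

lemma x1_mem (θ : ℝ) : 0 ≤ 2 + 2 * Real.cos θ ∧ 2 + 2 * Real.cos θ ≤ 4 := by
  have a := Real.cos_le_one θ
  have b := Real.neg_one_le_cos θ
  constructor <;> linarith

section
variable {ρ : ℝ} (h0 : 0 < ρ) (h1 : ρ < 1)
include h0 h1

lemma cf_lim {u v w : ℝ → ℝ} {U V W : ℕ → Polynomial ℝ}
    (hu : ∀ x ∈ Set.Icc (0 : ℝ) 4, Tendsto (fun j => (U j).eval x) atTop (𝓝 (u x)))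
    (hv : ∀ x ∈ Set.Icc (0 : ℝ) 4, Tendsto (fun j => (V j).eval x) atTop (𝓝 (v x)))
    (hw : ∀ x ∈ Set.Icc ((1 - ρ) ^ 2) ((1 + ρ) ^ 2),
      Tendsto (fun j => (W j).eval x) atTop (𝓝 (w x)))
    {CU CV CW : ℝ} (bu : ∀ j, ∀ x ∈ Set.Icc (0 : ℝ) 4, |(U j).eval x| ≤ CU)
    (bv : ∀ j, ∀ x ∈ Set.Icc (0 : ℝ) 4, |(V j).eval x| ≤ CV)
    (bw : ∀ j, ∀ x ∈ Set.Icc ((1 - ρ) ^ 2) ((1 + ρ) ^ 2), |(W j).eval x| ≤ CW) :
    Tendsto (fun j => cf (fun x => (U j).eval x) (fun x => (V j).eval x)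
      (fun x => (W j).eval x) ρ) atTop (𝓝 (cf u v w ρ)) ∧
    Tendsto (fun j => av fun θ => Lf (fun x => (U j).eval x) (fun x => (V j).eval x)
      (fun x => (W j).eval x) ρ (Xf ρ θ) ^ 2) atTop
      (𝓝 (av fun θ => Lf u v w ρ (Xf ρ θ) ^ 2)) := by
  have cr : Continuous (fun θ => Rf ρ θ) := by unfold Rf; fun_prop
  have cx : Continuous (fun θ => Xf ρ θ) := by unfold Xf; fun_prop
  have cx1 : Continuous (fun θ : ℝ => 2 + 2 * Real.cos θ) := by fun_prop
  have hb4 : (1 + ρ) ^ 2 ≤ 4 := by nlinarith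
  have h4 : 4 * ρ ^ 2 ≤ 4 := by nlinarith
  have ρ2 : 0 < 4 * ρ ^ 2 := by positivity
  have m1 : (1 - ρ) ^ 2 ≤ (1 + ρ) ^ 2 := by nlinarith
  have CU0 : 0 ≤ CU := (abs_nonneg _).trans (bu 0 0 ⟨le_rfl, by norm_num⟩)
  have CV0 : 0 ≤ CV := (abs_nonneg _).trans (bv 0 0 ⟨le_rfl, by norm_num⟩)
  have CW0 : 0 ≤ CW := (abs_nonneg _).trans (bw 0 ((1 - ρ) ^ 2) ⟨le_rfl, m1⟩)
  constructor
  · obtain ⟨CZ, hCZ⟩ := (isCompact_Icc (a := (1 - ρ) ^ 2)
      (b := (1 + ρ) ^ 2)).exists_bound_of_continuousOn (Zp_cont ρ).continuousOn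
    have CZ0 : 0 ≤ CZ := (norm_nonneg _).trans (hCZ ((1 - ρ) ^ 2) ⟨le_rfl, m1⟩)
    refine Tendsto.add (Tendsto.const_mul 2 ?_) (Tendsto.add ?_ ?_)
    · refine av_dom (C := (1 + CZ * CW) ^ 2) (c := 2) (fun j => ?_) (fun j θ => ?_)
        (fun θ _ => ?_)
      · refine (ind_meas ρ).mul (Continuous.measurable ?_)
        unfold cw
        exact (continuous_const.sub (((Zp_cont ρ).comp cr).mul ((W j).continuous.comp cr))).pow 2
      · have a1 := hCZ _ (Rf_mem h0 h1 θ)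
        rw [Real.norm_eq_abs] at a1
        have a2 := bw j _ (Rf_mem h0 h1 θ)
        have a3 : |cw (fun x => (W j).eval x) ρ (Rf ρ θ)| ≤ 1 + CZ * CW := by
          unfold cw
          refine (abs_sub _ _).trans ?_
          rw [abs_one, abs_mul]
          have := mul_le_mul a1 a2 (abs_nonneg _) CZ0
          linarith
        rw [abs_mul, abs_of_nonneg (sq_nonneg (cw _ ρ (Rf ρ θ))), ← sq_abs (cw _ ρ (Rf ρ θ))]
        have a4 := pow_le_pow_left₀ (abs_nonneg _) a3 2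
        calc _ ≤ 1 * (1 + CZ * CW) ^ 2 := mul_le_mul (ind_bd ρ θ) a4 (by positivity) zero_le_one
          _ = _ := one_mul _
      · refine Tendsto.const_mul _ (Tendsto.pow ?_ 2)
        unfold cw
        exact (tendsto_const_nhds).sub ((hw _ (Rf_mem h0 h1 θ)).const_mul _)
    · refine av_dom (C := (16 * CU) ^ 2) (c := 2) (fun j => ?_) (fun j θ => ?_)
        (fun θ _ => ?_)
      · exact (((cx1.mul (continuous_const.sub cx1)).mul ((U j).continuous.comp cx1)).pow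
          2).measurable
      · rw [abs_of_nonneg (sq_nonneg _), ← sq_abs]
        refine pow_le_pow_left₀ (abs_nonneg _) ?_ 2
        have a0 := x1_mem θ
        rw [abs_mul]
        refine mul_le_mul ?_ (bu j _ a0) (abs_nonneg _) (by norm_num)
        rw [abs_of_nonneg (mul_nonneg a0.1 (by linarith [a0.2]))]
        nlinarith [a0.1, a0.2]
      · exact Tendsto.pow ((hu _ (x1_mem θ)).const_mul _) 2
    · refine av_dom (C := (16 * CV) ^ 2) (c := 2) (fun j => ?_) (fun j θ => ?_)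
        (fun θ _ => ?_)
      · exact (((cx.mul (continuous_const.sub cx)).mul ((V j).continuous.comp cx)).pow
          2).measurable
      · rw [abs_of_nonneg (sq_nonneg _), ← sq_abs]
        refine pow_le_pow_left₀ (abs_nonneg _) ?_ 2
        obtain ⟨a0, a1⟩ := Xf_mem h0 h1 θ
        rw [abs_mul]
        refine mul_le_mul ?_ (bv j _ ⟨a0, by linarith⟩) (abs_nonneg _) (by norm_num)
        rw [abs_of_nonneg (mul_nonneg a0 (by linarith))]
        nlinarith
      · obtain ⟨a0, a1⟩ := Xf_mem h0 h1 θ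
        exact Tendsto.pow ((hv _ ⟨a0, by linarith⟩).const_mul _) 2
  · refine av_dom (C := (16 * (512 * CW + 16 * 16 * 65536 * CW ^ 2 + CU * CV)) ^ 2) (c := 2)
      (fun j => ?_) (fun j θ => ?_) (fun θ _ => ?_)
    · have cs : Continuous (fun θ => rs ρ (Xf ρ θ)) := (rs_cont ρ).comp cx
      have cW := (W j).continuous.comp cs
      have cU := (U j).continuous.comp cx
      have cV := (V j).continuous.comp cx
      have cd : Continuous (fun θ => dg ρ (Xf ρ θ)) := by unfold dg; fun_prop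
      unfold Lf twf
      refine (Continuous.pow ?_ 2).measurable
      refine (Continuous.neg ?_).mul ((Continuous.sub ?_ ?_).add (cU.mul cV))
      · exact cx.mul (continuous_const.sub cx)
      · exact (continuous_const.mul (cs.pow 4)).mul cW
      · exact (((cx.pow 2).mul cd).mul (cs.pow 8)).mul (cW.pow 2)
    · rw [abs_of_nonneg (sq_nonneg _), ← sq_abs]
      refine pow_le_pow_left₀ (abs_nonneg _) ?_ 2
      obtain ⟨x0, x1⟩ := Xf_mem h0 h1 θ
      obtain ⟨x, hx⟩ : ∃ x, x = Xf ρ θ := ⟨_, rfl⟩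
      rw [← hx] at x0 x1 ⊢
      obtain ⟨r1, hr, hs, hp, a1, a2, a3, a4⟩ := rs_spec h0 h1 x0 x1
      have a5 := bw j _ ⟨a3, a4⟩
      have a6 := bu j x ⟨x0, by linarith⟩
      have a7 := bv j x ⟨x0, by linarith⟩
      obtain ⟨r, hr'⟩ : ∃ r, r = rs ρ x := ⟨_, rfl⟩
      unfold Lf
      rw [← hr'] at a3 a4 a5 ⊢
      have r0 : 0 ≤ r := le_trans (sq_nonneg _) a3
      have r4 : r ≤ 4 := a4.trans hb4
      have p4 : r ^ 4 ≤ 256 := by
        have := pow_le_pow_left₀ r0 r4 4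
        norm_num at this; exact this
      have p8 : r ^ 8 ≤ 65536 := by
        have := pow_le_pow_left₀ r0 r4 8
        norm_num at this; exact this
      have d0 : 0 ≤ dg ρ x := by unfold dg; exact mul_nonneg (by linarith) (by linarith)
      have d1 : dg ρ x ≤ 16 := by unfold dg; nlinarith
      have xx : x ^ 2 ≤ 16 := by nlinarith
      have t1 : |2 * r ^ 4 * (W j).eval r| ≤ 512 * CW := by
        rw [abs_mul, abs_of_nonneg (by positivity)]
        exact mul_le_mul (by linarith) a5 (abs_nonneg _) (by norm_num)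
      have t2 : |x ^ 2 * dg ρ x * r ^ 8 * (W j).eval r ^ 2| ≤ 16 * 16 * 65536 * CW ^ 2 := by
        rw [abs_mul, abs_of_nonneg (by positivity), abs_of_nonneg (sq_nonneg _),
          ← sq_abs ((W j).eval r)]
        have s1 : x ^ 2 * dg ρ x ≤ 16 * 16 := mul_le_mul xx d1 d0 (by norm_num)
        have s2 : x ^ 2 * dg ρ x * r ^ 8 ≤ 16 * 16 * 65536 :=
          mul_le_mul s1 p8 (by positivity) (by norm_num)
        exact mul_le_mul s2 (pow_le_pow_left₀ (abs_nonneg _) a5 2) (by positivity) (by norm_num)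
      have t3 : |(U j).eval x * (V j).eval x| ≤ CU * CV := by
        rw [abs_mul]; exact mul_le_mul a6 a7 (abs_nonneg _) CU0
      have t4 : |x * (4 * ρ ^ 2 - x)| ≤ 16 := by
        rw [abs_of_nonneg (mul_nonneg x0 (by linarith))]
        nlinarith
      rw [abs_mul, abs_neg]
      refine mul_le_mul t4 ?_ (abs_nonneg _) (by norm_num)
      unfold twf
      refine (abs_add_le _ _).trans ?_
      have := abs_sub (2 * r ^ 4 * (W j).eval r) (x ^ 2 * dg ρ x * r ^ 8 * (W j).eval r ^ 2)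
      linarith
    · refine Tendsto.pow ?_ 2
      obtain ⟨x0, x1⟩ := Xf_mem h0 h1 θ
      obtain ⟨r1, hr, hs, hp, a1, a2, a3, a4⟩ := rs_spec h0 h1 x0 x1
      have l1 := hw _ ⟨a3, a4⟩
      have l2 := hu _ ⟨x0, by linarith⟩
      have l3 := hv _ ⟨x0, by linarith⟩
      unfold Lf twf
      exact (((l1.const_mul _).sub ((l1.pow 2).const_mul _)).add (l2.mul l3)).const_mul _

/-- **polynomial symbols from continuous ones** -/
theorem approx {u v w : ℝ → ℝ} (hu : ContinuousOn u (Set.Icc 0 4))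
    (hv : ContinuousOn v (Set.Icc 0 4))
    (hw : ContinuousOn w (Set.Icc ((1 - ρ) ^ 2) ((1 + ρ) ^ 2)))
    (hL : ∀ x, 0 ≤ x → x ≤ 4 * ρ ^ 2 → Lf u v w ρ x = 0) {ε : ℝ} (hε : 0 < ε) :
    ∃ (U V W : Polynomial ℝ) (M N : ℕ), cst ρ U V W M N < cf u v w ρ + ε ∧
      ms (fun θ => Bn U V W M N ρ (gam ρ) (tau ρ) (Xf ρ θ)) < ε := by
  obtain ⟨U, hU, CU, bU⟩ := wst hu
  obtain ⟨V, hV, CV, bV⟩ := wst hv
  obtain ⟨W, hW, CW, bW⟩ := wst hw
  obtain ⟨l1, l2⟩ := cf_lim h0 h1 hU hV hW bU bV bW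
  have e0 : (av fun θ => Lf u v w ρ (Xf ρ θ) ^ 2) = 0 := by
    have : (fun θ => Lf u v w ρ (Xf ρ θ) ^ 2) = fun _ => (0 : ℝ) := by
      funext θ
      rw [hL _ (Xf_mem h0 h1 θ).1 (Xf_mem h0 h1 θ).2]; norm_num
    rw [this, av_zero]
  rw [e0] at l2
  obtain ⟨j, j1, j2⟩ := ((l1.eventually (gt_mem_nhds (lt_add_of_pos_right _
    (show 0 < ε / 2 by positivity)))).and (l2.eventually (gt_mem_nhds hε))).exists
  obtain ⟨M, hM⟩ := exM h0 h1
  have k1 := lim_Q h0 h1 hM (W j)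
  have k2 := lim_B h0 h1 hM (U j) (V j) (W j)
  have k3 : Tendsto (fun N => cst ρ (U j) (V j) (W j) M N) atTop
      (𝓝 (cf (fun x => (U j).eval x) (fun x => (V j).eval x) (fun x => (W j).eval x) ρ)) := by
    have eA : ms (fun θ => GA (U j) (2 + 2 * Real.cos θ)) =
        av (fun θ => ((2 + 2 * Real.cos θ) * (4 - (2 + 2 * Real.cos θ)) *
          (U j).eval (2 + 2 * Real.cos θ)) ^ 2) := by
      rw [ms_av]
      congr 1
    have eB : ms (fun θ => GB (V j) ρ (Xf ρ θ)) =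
        av (fun θ => (Xf ρ θ * (4 * ρ ^ 2 - Xf ρ θ) * (V j).eval (Xf ρ θ)) ^ 2) := by
      rw [ms_av]
      congr 1
    unfold cst cf
    rw [eA, eB]
    exact (k1.const_mul 2).add_const _
  obtain ⟨N, n1, n2⟩ := ((k3.eventually (gt_mem_nhds (lt_add_of_pos_right _
    (show 0 < ε / 2 by positivity)))).and (k2.eventually (gt_mem_nhds j2))).exists
  exact ⟨U j, V j, W j, M, N, by linarith, n2⟩

end

end

end Pool.Agent.J4H76.LC
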