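import Pool.Agent.J4H76.LC.Real3

/-! The explicit symbols and their costs. -/
set_option autoImplicit false
set_option linter.unusedVariables false
set_option linter.unusedSectionVars false
open Filter Topology MeasureTheory

namespace Pool.Agent.J4H76.LC

noncomputable section

open Pool.Agent.J4H76.LB
open Pool.Agent.J4H76.TP (ms Rf Xf Rf_cont Xf_cont)

def clamp (s : ℝ) : ℝ := max 0 (min 1 s)

lemma clamp_cont : Continuous clamp := by unfold clamp; fun_prop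
lemma clamp_nn (s : ℝ) : 0 ≤ clamp s := le_max_left _ _
lemma clamp_le (s : ℝ) : clamp s ≤ 1 := max_le zero_le_one (min_le_left _ _)
lemma clamp_zero {s : ℝ} (h : s ≤ 0) : clamp s = 0 := by
  unfold clamp; rw [min_eq_right (by linarith), max_eq_left h]
lemma clamp_one {s : ℝ} (h : 1 ≤ s) : clamp s = 1 := by
  unfold clamp; rw [min_eq_left h, max_eq_right zero_le_one]
lemma clamp_nz {s : ℝ} (h : clamp s ≠ 0) : 0 < s := by
  by_contra h2
  exact h (clamp_zero (not_lt.1 h2))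

/-- the cutoff function -/
def ch (ρ x0 K x : ℝ) : ℝ := clamp (K * (x - x0) - 1) * clamp (K * (4 * ρ ^ 2 - x) - 1)

lemma ch_cont (ρ x0 K : ℝ) : Continuous (ch ρ x0 K) := by
  unfold ch
  exact (clamp_cont.comp (by fun_prop)).mul (clamp_cont.comp (by fun_prop))
lemma ch_nn (ρ x0 K x : ℝ) : 0 ≤ ch ρ x0 K x := mul_nonneg (clamp_nn _) (clamp_nn _)
lemma ch_le (ρ x0 K x : ℝ) : ch ρ x0 K x ≤ 1 := mul_le_one₀ (clamp_le _) (clamp_nn _) (clamp_le _)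
lemma ch_nz {ρ x0 K x : ℝ} (hK : 0 < K) (h : ch ρ x0 K x ≠ 0) :
    x0 + 1 / K < x ∧ x < 4 * ρ ^ 2 - 1 / K := by
  unfold ch at h
  have h1 := clamp_nz (left_ne_zero_of_mul h)
  have h2 := clamp_nz (right_ne_zero_of_mul h)
  constructor
  · have : 1 / K < x - x0 := by rw [div_lt_iff₀ hK]; linarith
    linarith
  · have : 1 / K < 4 * ρ ^ 2 - x := by rw [div_lt_iff₀ hK]; linarith
    linarith

def sr (ρ x0 K x : ℝ) : ℝ := √(ch ρ x0 K x * (2 - ch ρ x0 K x))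

lemma sr_cont (ρ x0 K : ℝ) : Continuous (sr ρ x0 K) :=
  Real.continuous_sqrt.comp ((ch_cont ρ x0 K).mul (continuous_const.sub (ch_cont ρ x0 K)))
lemma sr_sq (ρ x0 K x : ℝ) : sr ρ x0 K x ^ 2 = ch ρ x0 K x * (2 - ch ρ x0 K x) := by
  unfold sr
  have a := ch_nn ρ x0 K x
  have b := ch_le ρ x0 K x
  exact Real.sq_sqrt (mul_nonneg a (by linarith))
lemma sr_le (ρ x0 K x : ℝ) : sr ρ x0 K x ^ 2 ≤ 1 := by
  rw [sr_sq]; nlinarith [sq_nonneg (1 - ch ρ x0 K x)]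
lemma sr_zero {ρ x0 K x : ℝ} (h : ch ρ x0 K x = 0) : sr ρ x0 K x = 0 := by
  unfold sr; rw [h, zero_mul, Real.sqrt_zero]

def yy (ρ x0 K x : ℝ) : ℝ :=
  ch ρ x0 K x / (max x (1 / K) ^ 2 * (max (4 - x) (1 / K) * max (4 * ρ ^ 2 - x) (1 / K)))
def uu (ρ x0 K l x : ℝ) : ℝ := -(l * sr ρ x0 K x) / (max x (1 / K) * max (4 - x) (1 / K))
def vv (ρ x0 K l x : ℝ) : ℝ :=
  (l⁻¹ * sr ρ x0 K x) / (max x (1 / K) * max (4 * ρ ^ 2 - x) (1 / K))
def Xr (ρ r : ℝ) : ℝ := ss ρ - r - cc ρ / r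
def wv (ρ x0 K r : ℝ) : ℝ := yy ρ x0 K (Xr ρ r) / r ^ 4

lemma mx_pos {K : ℝ} (hK : 0 < K) (s : ℝ) : 0 < max s (1 / K) :=
  lt_of_lt_of_le (by positivity) (le_max_right _ _)

lemma yy_cont {ρ x0 K : ℝ} (hK : 0 < K) : Continuous (yy ρ x0 K) := by
  refine (ch_cont ρ x0 K).div (by fun_prop) fun x => ?_
  have a := mx_pos hK x
  have b := mx_pos hK (4 - x)
  have c := mx_pos hK (4 * ρ ^ 2 - x)
  positivity

lemma uu_cont {ρ x0 K : ℝ} (hK : 0 < K) (l : ℝ) : Continuous (uu ρ x0 K l) := by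
  refine (continuous_const.mul (sr_cont ρ x0 K)).neg.div (by fun_prop) fun x => ?_
  have a := mx_pos hK x
  have b := mx_pos hK (4 - x)
  positivity

lemma vv_cont {ρ x0 K : ℝ} (hK : 0 < K) (l : ℝ) : Continuous (vv ρ x0 K l) := by
  refine (continuous_const.mul (sr_cont ρ x0 K)).div (by fun_prop) fun x => ?_
  have a := mx_pos hK x
  have c := mx_pos hK (4 * ρ ^ 2 - x)
  positivity

section
variable {ρ : ℝ} (h0 : 0 < ρ) (h1 : ρ < 1)
include h0 h1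

lemma yy_mul {x0 K : ℝ} (hx0 : 0 ≤ x0) (hK : 0 < K) (x : ℝ) :
    x ^ 2 * dg ρ x * yy ρ x0 K x = ch ρ x0 K x := by
  by_cases h : ch ρ x0 K x = 0
  · unfold yy; rw [h]; simp
  · obtain ⟨a, b⟩ := ch_nz hK h
    have k0 : 0 < 1 / K := by positivity
    have h4 : 4 * ρ ^ 2 ≤ 4 := by nlinarith
    have x1 : 1 / K ≤ x := by linarith
    have x2 : 1 / K ≤ 4 - x := by linarith
    have x3 : 1 / K ≤ 4 * ρ ^ 2 - x := by linarith
    unfold yy dg
    rw [max_eq_left x1, max_eq_left x2, max_eq_left x3]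
    have y1 : x ≠ 0 := by linarith
    have y2 : 4 - x ≠ 0 := by linarith
    have y3 : 4 * ρ ^ 2 - x ≠ 0 := by linarith
    field_simp

lemma uu_mul {x0 K : ℝ} (hx0 : 0 ≤ x0) (hK : 0 < K) (l x : ℝ) :
    x * (4 - x) * uu ρ x0 K l x = -(l * sr ρ x0 K x) := by
  by_cases h : ch ρ x0 K x = 0
  · unfold uu; rw [sr_zero h]; simp
  · obtain ⟨a, b⟩ := ch_nz hK h
    have k0 : 0 < 1 / K := by positivity
    have h4 : 4 * ρ ^ 2 ≤ 4 := by nlinarith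
    have x1 : 1 / K ≤ x := by linarith
    have x2 : 1 / K ≤ 4 - x := by linarith
    unfold uu
    rw [max_eq_left x1, max_eq_left x2]
    have y1 : x ≠ 0 := by linarith
    have y2 : 4 - x ≠ 0 := by linarith
    field_simp

lemma vv_mul {x0 K : ℝ} (hx0 : 0 ≤ x0) (hK : 0 < K) (l x : ℝ) :
    x * (4 * ρ ^ 2 - x) * vv ρ x0 K l x = l⁻¹ * sr ρ x0 K x := by
  by_cases h : ch ρ x0 K x = 0
  · unfold vv; rw [sr_zero h]; simp
  · obtain ⟨a, b⟩ := ch_nz hK h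
    have k0 : 0 < 1 / K := by positivity
    have x1 : 1 / K ≤ x := by linarith
    have x3 : 1 / K ≤ 4 * ρ ^ 2 - x := by linarith
    unfold vv
    rw [max_eq_left x1, max_eq_left x3]
    have y1 : x ≠ 0 := by linarith
    have y3 : 4 * ρ ^ 2 - x ≠ 0 := by linarith
    rw [mul_div_assoc', mul_comm (x * (4 * ρ ^ 2 - x)), mul_div_assoc,
      div_self (mul_ne_zero y1 y3), mul_one]

lemma m_pos : 0 < (1 - ρ) ^ 2 := by
  have := sub_pos.2 h1
  positivity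

lemma Lf_zero {x0 K l : ℝ} (hx0 : 0 ≤ x0) (hK : 0 < K) (hl : 0 < l) {x : ℝ} (a : 0 ≤ x)
    (b : x ≤ 4 * ρ ^ 2) : Lf (uu ρ x0 K l) (vv ρ x0 K l) (wv ρ x0 K) ρ x = 0 := by
  rcases a.eq_or_lt with ha | ha
  · unfold Lf; rw [← ha]; ring
  obtain ⟨r1, hr, hs, hp, a1, a2, a3, a4⟩ := rs_spec h0 h1 a b
  have r0 : 0 < rs ρ x := lt_of_lt_of_le (m_pos h0 h1) a3
  have eX : Xr ρ (rs ρ x) = x := by
    unfold Xr
    rw [← hp, mul_div_assoc, div_self r0.ne', mul_one]; linarith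
  have ew : wv ρ x0 K (rs ρ x) = yy ρ x0 K x / rs ρ x ^ 4 := by unfold wv; rw [eX]
  have m1 := yy_mul h0 h1 hx0 hK x
  have m2 := uu_mul h0 h1 hx0 hK l x
  have m3 := vv_mul h0 h1 hx0 hK l x
  have m4 := sr_sq ρ x0 K x
  obtain ⟨y, hy⟩ : ∃ y, y = yy ρ x0 K x := ⟨_, rfl⟩
  obtain ⟨u, hu⟩ : ∃ y, y = uu ρ x0 K l x := ⟨_, rfl⟩
  obtain ⟨v, hv⟩ : ∃ y, y = vv ρ x0 K l x := ⟨_, rfl⟩
  obtain ⟨c, hc⟩ : ∃ y, y = ch ρ x0 K x := ⟨_, rfl⟩
  obtain ⟨s, hs'⟩ : ∃ y, y = sr ρ x0 K x := ⟨_, rfl⟩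
  have et : twf (wv ρ x0 K) ρ x (rs ρ x) = 2 * y - x ^ 2 * dg ρ x * y ^ 2 := by
    unfold twf
    rw [ew, ← hy]
    have := r0.ne'
    field_simp
  unfold Lf
  rw [et, ← hu, ← hv]
  rw [← hy, ← hc] at m1
  rw [← hu, ← hs'] at m2
  rw [← hv, ← hs'] at m3
  rw [← hs', ← hc] at m4
  have h4 : 4 * ρ ^ 2 < 4 := by nlinarith
  have ne : x * (4 - x) ≠ 0 := mul_ne_zero ha.ne' (by linarith)
  have key : x * (4 - x) * (-(x * (4 * ρ ^ 2 - x)) * (2 * y - x ^ 2 * dg ρ x * y ^ 2 + u * v)) =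
      0 := by
    have e1 : x * (4 - x) * (-(x * (4 * ρ ^ 2 - x)) * (2 * y - x ^ 2 * dg ρ x * y ^ 2 + u * v)) =
        -(2 * (x ^ 2 * dg ρ x * y) - (x ^ 2 * dg ρ x * y) ^ 2 +
          (x * (4 - x) * u) * (x * (4 * ρ ^ 2 - x) * v)) := by
      unfold dg; ring
    rw [e1, m1, m2, m3]
    have e2 : -(l * s) * (l⁻¹ * s) = - s ^ 2 := by
      field_simp
    rw [e2, m4]; ring
  exact (mul_eq_zero.1 key).resolve_left ne

lemma cw_val {x0 K : ℝ} (hx0 : 0 ≤ x0) (hK : 0 < K) {r : ℝ} (r0 : 0 < r) :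
    cw (wv ρ x0 K) ρ r = 1 - ch ρ x0 K (Xr ρ r) := by
  have hs : r + cc ρ / r = ss ρ - Xr ρ r := by unfold Xr; ring
  have hp : r * (cc ρ / r) = cc ρ := by field_simp
  have z := Zp_root hs hp
  have m1 := yy_mul h0 h1 hx0 hK (Xr ρ r)
  unfold cw wv
  rw [z, ← m1]
  field_simp

lemma Xr_cos (θ : ℝ) : Rf ρ θ * Xr ρ (Rf ρ θ) = 4 * ρ ^ 2 * (1 - Real.cos θ ^ 2) := by
  have r0 : 0 < Rf ρ θ := lt_of_lt_of_le (m_pos h0 h1) (Rf_mem h0 h1 θ).1
  unfold Xr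
  have e : Rf ρ θ * (ss ρ - Rf ρ θ - cc ρ / Rf ρ θ) = Rf ρ θ * (ss ρ - Rf ρ θ) - cc ρ := by
    field_simp
  rw [e]; unfold ss cc Rf; ring

lemma Xr_cont : Continuous (fun θ => Xr ρ (Rf ρ θ)) := by
  have cr : Continuous (fun θ => Rf ρ θ) := by unfold Rf; fun_prop
  unfold Xr
  refine (continuous_const.sub cr).sub (continuous_const.div cr fun θ => ?_)
  exact (lt_of_lt_of_le (m_pos h0 h1) (Rf_mem h0 h1 θ).1).ne'

/-- the first cost -/
lemma cost1 {κ : ℝ} (k0 : 0 ≤ κ) (k1 : κ ≤ 1) {ε : ℝ} (hε : 0 < ε) : ∃ K : ℝ, 0 < K ∧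
    av (fun θ => ind ρ θ * (1 - ch ρ (4 * (κ * ρ) ^ 2) K (Xr ρ (Rf ρ θ))) ^ 2) <
      (Real.arcsin κ - Real.arcsin (κ * ρ)) / Real.pi + ε := by
  obtain ⟨a, ha⟩ : ∃ a, a = Real.arcsin κ - Real.arcsin (κ * ρ) := ⟨_, rfl⟩
  have kρ0 : 0 ≤ κ * ρ := by positivity
  have kρ1 : κ * ρ ≤ κ := by nlinarith
  have a0 : 0 ≤ a := by
    rw [ha]
    have := Real.monotone_arcsin kρ1
    linarith
  have a1 : a ≤ Real.pi / 2 := by
    rw [ha]
    have := Real.arcsin_le_pi_div_two κ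
    have := Real.arcsin_nonneg.2 kρ0
    linarith
  have ec : Real.arccos (Real.cos a) = a :=
    Real.arccos_cos a0 (by linarith [Real.pi_pos])
  obtain ⟨q, hq⟩ : ∃ q, q = √(1 - κ ^ 2) * √(1 - (κ * ρ) ^ 2) := ⟨_, rfl⟩
  have q0 : 0 ≤ q := by rw [hq]; positivity
  have kρ2 : κ * ρ ≤ 1 := by linarith
  have q2 : q ^ 2 = (1 - κ ^ 2) * (1 - (κ * ρ) ^ 2) := by
    rw [hq, mul_pow, Real.sq_sqrt (by nlinarith), Real.sq_sqrt (by nlinarith)]
  have es : Real.cos a = κ * (κ * ρ) + q := by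
    rw [ha, Real.cos_sub, Real.cos_arcsin, Real.cos_arcsin,
      Real.sin_arcsin (by linarith) k1, Real.sin_arcsin (by linarith) kρ2, hq]
    ring
  obtain ⟨s, hs⟩ : ∃ s, s = Real.cos a := ⟨_, rfl⟩
  have s1 : s ≤ 1 := by rw [hs]; exact Real.cos_le_one a
  have s0 : -1 ≤ s := by rw [hs]; exact Real.neg_one_le_cos a
  have key : Tendsto (fun k : ℕ => av (fun θ => max (ind ρ θ *
      (1 - ch ρ (4 * (κ * ρ) ^ 2) ((k : ℝ) + 1) (Xr ρ (Rf ρ θ))) ^ 2) (ind s θ))) atTop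
      (𝓝 (av (ind s))) := by
    refine av_dom (C := 1) (c := -s) (fun k => ?_) (fun k θ => ?_) (fun θ hθ => ?_)
    · refine Measurable.max ((ind_meas ρ).mul ?_) (ind_meas s)
      exact ((continuous_const.sub ((ch_cont _ _ _).comp (Xr_cont h0 h1))).pow 2).measurable
    · have c1 := ch_nn ρ (4 * (κ * ρ) ^ 2) ((k : ℝ) + 1) (Xr ρ (Rf ρ θ))
      have c2 := ch_le ρ (4 * (κ * ρ) ^ 2) ((k : ℝ) + 1) (Xr ρ (Rf ρ θ))
      have c3 := abs_le.1 (ind_bd ρ θ)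
      have c4 := abs_le.1 (ind_bd s θ)
      have c5 := ind_nn ρ θ
      have c6 := ind_nn s θ
      rw [abs_of_nonneg (le_max_of_le_right c6)]
      refine max_le ?_ c4.2
      have c7 : (1 - ch ρ (4 * (κ * ρ) ^ 2) ((k : ℝ) + 1) (Xr ρ (Rf ρ θ))) ^ 2 ≤ 1 := by
        nlinarith
      exact mul_le_one₀ c3.2 (sq_nonneg _) c7
    · have r0 : 0 < Rf ρ θ := lt_of_lt_of_le (m_pos h0 h1) (Rf_mem h0 h1 θ).1
      have eX := Xr_cos h0 h1 θ
      obtain ⟨X, hX⟩ : ∃ X, X = Xr ρ (Rf ρ θ) := ⟨_, rfl⟩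
      rw [← hX] at eX ⊢
      have n1 := ind_nn s θ
      by_cases hc : Real.cos θ < -ρ
      · by_cases hx : X ≤ 4 * (κ * ρ) ^ 2
        · -- the value is one
          have hcs : Real.cos θ < -s := by
            refine lt_of_le_of_ne ?_ hθ
            have i1 : 4 * ρ ^ 2 * (1 - Real.cos θ ^ 2) ≤ Rf ρ θ * (4 * (κ * ρ) ^ 2) := by
              rw [← eX]; exact mul_le_mul_of_nonneg_left hx r0.le
            have i2 : 1 - Real.cos θ ^ 2 ≤ κ ^ 2 * Rf ρ θ := by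
              have : 4 * ρ ^ 2 * (1 - Real.cos θ ^ 2) ≤ 4 * ρ ^ 2 * (κ ^ 2 * Rf ρ θ) := by
                linarith
              exact le_of_mul_le_mul_left this (by positivity)
            unfold Rf at i2
            have i3 : q ^ 2 ≤ (Real.cos θ + κ ^ 2 * ρ) ^ 2 := by
              rw [q2]; nlinarith
            have i4 : Real.cos θ + κ ^ 2 * ρ ≤ 0 := by
              have : κ ^ 2 * ρ ≤ 1 * ρ := mul_le_mul_of_nonneg_right (by nlinarith) h0.le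
              linarith
            have i5 : q ≤ -(Real.cos θ + κ ^ 2 * ρ) := by
              have := abs_le_of_sq_le_sq' (a := q) (b := -(Real.cos θ + κ ^ 2 * ρ))
                (by rw [neg_sq]; exact i3) (by linarith)
              exact this.2
            rw [hs, es]
            have : κ * (κ * ρ) = κ ^ 2 * ρ := by ring
            linarith
          have e1 : ind s θ = 1 := by unfold ind; rw [if_pos hcs]
          have e2 : ind ρ θ = 1 := by unfold ind; rw [if_pos hc]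
          refine tendsto_const_nhds.congr fun k => ?_
          have e3 : ch ρ (4 * (κ * ρ) ^ 2) ((k : ℝ) + 1) X = 0 := by
            unfold ch
            rw [clamp_zero, zero_mul]
            have : (0 : ℝ) ≤ (k : ℝ) + 1 := by positivity
            nlinarith
          rw [e1, e2, e3]; norm_num
        · push Not at hx
          have hx4 : X < 4 * ρ ^ 2 := by
            have i1 : Rf ρ θ * (4 * ρ ^ 2 - X) = 4 * ρ ^ 2 * (Real.cos θ + ρ) ^ 2 := by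
              have : Rf ρ θ * (4 * ρ ^ 2 - X) = Rf ρ θ * (4 * ρ ^ 2) - Rf ρ θ * X := by ring
              rw [this, eX]; unfold Rf; ring
            have i2 : 0 < 4 * ρ ^ 2 * (Real.cos θ + ρ) ^ 2 := by
              have : Real.cos θ + ρ ≠ 0 := by linarith
              positivity
            rw [← i1] at i2
            have := (mul_pos_iff_of_pos_left r0).1 i2
            linarith
          have l1 : ∀ d : ℝ, 0 < d → ∀ᶠ k : ℕ in atTop, 1 ≤ ((k : ℝ) + 1) * d - 1 := by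
            intro d hd
            obtain ⟨n, hn⟩ := exists_nat_gt (2 / d)
            refine eventually_atTop.2 ⟨n, fun k hk => ?_⟩
            have h2 : (n : ℝ) ≤ k := by exact_mod_cast hk
            rw [div_lt_iff₀ hd] at hn
            nlinarith
          have l2 : ∀ᶠ k : ℕ in atTop, ind s θ = max (ind ρ θ *
              (1 - ch ρ (4 * (κ * ρ) ^ 2) ((k : ℝ) + 1) X) ^ 2) (ind s θ) := by
            filter_upwards [l1 (X - 4 * (κ * ρ) ^ 2) (by linarith),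
              l1 (4 * ρ ^ 2 - X) (by linarith)] with k j1 j2
            have e3 : ch ρ (4 * (κ * ρ) ^ 2) ((k : ℝ) + 1) X = 1 := by
              unfold ch
              rw [clamp_one j1, clamp_one j2, one_mul]
            rw [e3, sub_self, zero_pow two_ne_zero, mul_zero, max_eq_right n1]
          exact tendsto_const_nhds.congr' l2
      · have e2 : ind ρ θ = 0 := by unfold ind; rw [if_neg hc]
        refine tendsto_const_nhds.congr fun k => ?_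
        rw [e2, zero_mul, max_eq_right n1]
  have eav : av (ind s) = a / Real.pi := by rw [av_ind s0 s1, hs, ec]
  rw [eav] at key
  obtain ⟨k, hk⟩ := (key.eventually (gt_mem_nhds (lt_add_of_pos_right _ hε))).exists
  refine ⟨(k : ℝ) + 1, by positivity, ?_⟩
  rw [← ha]
  refine lt_of_le_of_lt ?_ hk
  have ms1 : Measurable (fun θ => ind ρ θ *
      (1 - ch ρ (4 * (κ * ρ) ^ 2) ((k : ℝ) + 1) (Xr ρ (Rf ρ θ))) ^ 2) :=
    (ind_meas ρ).mul
      ((continuous_const.sub ((ch_cont _ _ _).comp (Xr_cont h0 h1))).pow 2).measurable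
  have bd1 : ∀ θ, |ind ρ θ *
      (1 - ch ρ (4 * (κ * ρ) ^ 2) ((k : ℝ) + 1) (Xr ρ (Rf ρ θ))) ^ 2| ≤ 1 := by
    intro θ
    have c1 := ch_nn ρ (4 * (κ * ρ) ^ 2) ((k : ℝ) + 1) (Xr ρ (Rf ρ θ))
    have c2 := ch_le ρ (4 * (κ * ρ) ^ 2) ((k : ℝ) + 1) (Xr ρ (Rf ρ θ))
    have c3 := abs_le.1 (ind_bd ρ θ)
    have c5 := ind_nn ρ θ
    rw [abs_of_nonneg (mul_nonneg c5 (sq_nonneg _))]
    have c7 : (1 - ch ρ (4 * (κ * ρ) ^ 2) ((k : ℝ) + 1) (Xr ρ (Rf ρ θ))) ^ 2 ≤ 1 := by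
      nlinarith
    exact mul_le_one₀ c3.2 (sq_nonneg _) c7
  refine av_mono (C := 1) (c := 2) ms1 (ms1.max (ind_meas s)) bd1 (fun θ => ?_)
    (fun θ _ => le_max_left _ _)
  have c4 := abs_le.1 (ind_bd s θ)
  have c6 := ind_nn s θ
  rw [abs_of_nonneg (le_max_of_le_right c6)]
  exact max_le (abs_le.1 (bd1 θ)).2 c4.2

lemma arccos_two {s : ℝ} (s0 : 0 ≤ s) (s1 : s ≤ 1) :
    Real.arccos (1 - 2 * s ^ 2) = 2 * Real.arcsin s := by
  have e : 1 - 2 * s ^ 2 = Real.cos (2 * Real.arcsin s) := by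
    rw [Real.cos_two_mul, Real.cos_sq', Real.sin_arcsin (by linarith) s1]; ring
  rw [e, Real.arccos_cos]
  · have := Real.arcsin_nonneg.2 s0
    linarith
  · have := Real.arcsin_le_pi_div_two s
    linarith

/-- the second cost -/
lemma cost2 {κ : ℝ} (k0 : 0 ≤ κ) (k1 : κ ≤ 1) {K : ℝ} (hK : 0 < K) (l : ℝ) :
    av (fun θ => ((2 + 2 * Real.cos θ) * (4 - (2 + 2 * Real.cos θ)) *
      uu ρ (4 * (κ * ρ) ^ 2) K l (2 + 2 * Real.cos θ)) ^ 2) ≤
      l ^ 2 * (2 * (Real.arcsin ρ - Real.arcsin (κ * ρ)) / Real.pi) := by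
  have kρ0 : 0 ≤ κ * ρ := by positivity
  have kρ1 : κ * ρ ≤ ρ := by nlinarith
  have hx0 : (0 : ℝ) ≤ 4 * (κ * ρ) ^ 2 := by positivity
  have e1 : ∀ θ : ℝ, ((2 + 2 * Real.cos θ) * (4 - (2 + 2 * Real.cos θ)) *
      uu ρ (4 * (κ * ρ) ^ 2) K l (2 + 2 * Real.cos θ)) ^ 2 =
      l ^ 2 * sr ρ (4 * (κ * ρ) ^ 2) K (2 + 2 * Real.cos θ) ^ 2 := by
    intro θ
    rw [uu_mul h0 h1 hx0 hK]; ring
  simp only [e1]
  rw [av_mul]
  refine mul_le_mul_of_nonneg_left ?_ (sq_nonneg l)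
  have e2 : 2 * (Real.arcsin ρ - Real.arcsin (κ * ρ)) / Real.pi =
      av (fun θ => ind (1 - 2 * ρ ^ 2) θ - ind (1 - 2 * (κ * ρ) ^ 2) θ) := by
    rw [av_sub (C := 1) (ind_meas _) (ind_meas _) (ind_bd _) (ind_bd _),
      av_ind (by nlinarith) (by nlinarith), av_ind (by nlinarith) (by nlinarith),
      arccos_two h0 h1 h0.le h1.le, arccos_two h0 h1 kρ0 (by linarith)]
    ring
  rw [e2]
  have cx1 : Continuous (fun θ : ℝ => 2 + 2 * Real.cos θ) := by fun_prop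
  refine av_mono (C := 2) (c := 2) (((sr_cont _ _ _).comp cx1).pow 2).measurable
    ((ind_meas _).sub (ind_meas _)) (fun θ => ?_) (fun θ => ?_) (fun θ _ => ?_)
  · rw [abs_of_nonneg (sq_nonneg _)]
    linarith [sr_le ρ (4 * (κ * ρ) ^ 2) K (2 + 2 * Real.cos θ)]
  · refine (abs_sub _ _).trans ?_
    linarith [ind_bd (1 - 2 * ρ ^ 2) θ, ind_bd (1 - 2 * (κ * ρ) ^ 2) θ]
  · by_cases hc : ch ρ (4 * (κ * ρ) ^ 2) K (2 + 2 * Real.cos θ) = 0
    · rw [sr_zero hc, zero_pow two_ne_zero]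
      have := ind_mono (s := 1 - 2 * (κ * ρ) ^ 2) (s' := 1 - 2 * ρ ^ 2) (θ := θ) (by nlinarith)
      linarith
    · obtain ⟨a, b⟩ := ch_nz hK hc
      have kk : 0 < 1 / K := by positivity
      have i1 : ind (1 - 2 * ρ ^ 2) θ = 1 := by unfold ind; rw [if_pos (by linarith)]
      have i2 : ind (1 - 2 * (κ * ρ) ^ 2) θ = 0 := by unfold ind; rw [if_neg (by linarith)]
      rw [i1, i2, sub_zero]
      exact sr_le _ _ _ _

/-- the third cost -/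
lemma cost3 {κ : ℝ} (k0 : 0 ≤ κ) (k1 : κ ≤ 1) {K : ℝ} (hK : 0 < K) (l : ℝ) :
    av (fun θ => (Xf ρ θ * (4 * ρ ^ 2 - Xf ρ θ) *
      vv ρ (4 * (κ * ρ) ^ 2) K l (Xf ρ θ)) ^ 2) ≤
      (l ^ 2)⁻¹ * (2 * Real.arccos κ / Real.pi) := by
  have kρ0 : 0 ≤ κ * ρ := by positivity
  have hx0 : (0 : ℝ) ≤ 4 * (κ * ρ) ^ 2 := by positivity
  have e1 : ∀ θ : ℝ, (Xf ρ θ * (4 * ρ ^ 2 - Xf ρ θ) *
      vv ρ (4 * (κ * ρ) ^ 2) K l (Xf ρ θ)) ^ 2 =
      (l ^ 2)⁻¹ * sr ρ (4 * (κ * ρ) ^ 2) K (Xf ρ θ) ^ 2 := by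
    intro θ
    rw [vv_mul h0 h1 hx0 hK, mul_pow, inv_pow]
  simp only [e1]
  rw [av_mul]
  refine mul_le_mul_of_nonneg_left ?_ (by positivity)
  have e2 : 2 * Real.arccos κ / Real.pi =
      av (fun θ => 1 - ind (1 - 2 * κ ^ 2) θ) := by
    rw [av_sub (C := 1) (g := fun _ => (1 : ℝ)) measurable_const (ind_meas _)
      (fun _ => by simp) (ind_bd _), av_one,
      av_ind (by nlinarith) (by nlinarith), arccos_two h0 h1 k0 k1,
      Real.arccos_eq_pi_div_two_sub_arcsin]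
    have := Real.pi_pos.ne'
    field_simp
  rw [e2]
  have cx : Continuous (fun θ => Xf ρ θ) := by unfold Xf; fun_prop
  refine av_mono (C := 2) (c := 2) (((sr_cont _ _ _).comp cx).pow 2).measurable
    (measurable_const.sub (ind_meas _)) (fun θ => ?_) (fun θ => ?_) (fun θ _ => ?_)
  · rw [abs_of_nonneg (sq_nonneg _)]
    linarith [sr_le ρ (4 * (κ * ρ) ^ 2) K (Xf ρ θ)]
  · refine (abs_sub _ _).trans ?_
    rw [abs_one]
    linarith [ind_bd (1 - 2 * κ ^ 2) θ]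
  · by_cases hc : ch ρ (4 * (κ * ρ) ^ 2) K (Xf ρ θ) = 0
    · rw [sr_zero hc, zero_pow two_ne_zero]
      have := abs_le.1 (ind_bd (1 - 2 * κ ^ 2) θ)
      linarith [this.2]
    · obtain ⟨a, b⟩ := ch_nz hK hc
      have kk : 0 < 1 / K := by positivity
      have i2 : ind (1 - 2 * κ ^ 2) θ = 0 := by
        unfold ind
        rw [if_neg]
        have i3 : ρ ^ 2 * (4 * κ ^ 2) < ρ ^ 2 * (2 + 2 * Real.cos θ) := by
          have : Xf ρ θ = ρ ^ 2 * (2 + 2 * Real.cos θ) := rfl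
          rw [← this]
          have : ρ ^ 2 * (4 * κ ^ 2) = 4 * (κ * ρ) ^ 2 := by ring
          linarith
        have i4 := lt_of_mul_lt_mul_left i3 (sq_nonneg ρ)
        linarith
      rw [i2, sub_zero]
      exact sr_le _ _ _ _

/-- the loss -/
def lsc (κ ρ : ℝ) : ℝ := 2 / Real.pi * (Real.arcsin κ - Real.arcsin (κ * ρ)) +
  4 / Real.pi * √((Real.arcsin ρ - Real.arcsin (κ * ρ)) * Real.arccos κ)

/-- **existence of good symbols** -/
theorem ex_sym {κ : ℝ} (k0 : 0 ≤ κ) (k1 : κ ≤ 1) {ε : ℝ} (hε : 0 < ε) :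
    ∃ (U V W : Polynomial ℝ) (M N : ℕ), cst ρ U V W M N < lsc κ ρ + ε ∧
      ms (fun θ => Bn U V W M N ρ (gam ρ) (tau ρ) (Xf ρ θ)) < ε := by
  obtain ⟨P, hP⟩ : ∃ P, P = Real.arcsin ρ - Real.arcsin (κ * ρ) := ⟨_, rfl⟩
  obtain ⟨Q, hQ⟩ : ∃ Q, Q = Real.arccos κ := ⟨_, rfl⟩
  obtain ⟨l, hl, hlm⟩ : ∃ l : ℝ, 0 < l ∧ l ^ 2 * P + (l ^ 2)⁻¹ * Q = 2 * √(P * Q) := by
    rcases k1.eq_or_lt with h | h
    · refine ⟨1, one_pos, ?_⟩
      rw [hP, hQ, h]; simp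
    · have P0 : 0 < P := by
        rw [hP]
        have : Real.arcsin (κ * ρ) < Real.arcsin ρ :=
          Real.strictMonoOn_arcsin ⟨by nlinarith, by nlinarith⟩ ⟨by linarith, h1.le⟩
            (by nlinarith)
        linarith
      have Q0 : 0 < Q := by rw [hQ]; exact Real.arccos_pos.2 h
      obtain ⟨p, hp⟩ : ∃ p, p = √P := ⟨_, rfl⟩
      obtain ⟨q, hq⟩ : ∃ q, q = √Q := ⟨_, rfl⟩
      have p0 : 0 < p := by rw [hp]; exact Real.sqrt_pos.2 P0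
      have q0 : 0 < q := by rw [hq]; exact Real.sqrt_pos.2 Q0
      have p2 : P = p ^ 2 := by rw [hp, Real.sq_sqrt P0.le]
      have q2 : Q = q ^ 2 := by rw [hq, Real.sq_sqrt Q0.le]
      refine ⟨√(q / p), Real.sqrt_pos.2 (by positivity), ?_⟩
      rw [Real.sq_sqrt (by positivity), Real.sqrt_mul P0.le, ← hp, ← hq, p2, q2]
      field_simp
      norm_num
  obtain ⟨K, hK, hK1⟩ := cost1 h0 h1 k0 k1 (ε := ε / 4) (by positivity)
  have hx0 : (0 : ℝ) ≤ 4 * (κ * ρ) ^ 2 := by positivity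
  have c2 := cost2 h0 h1 k0 k1 hK l
  have c3 := cost3 h0 h1 k0 k1 hK l
  have hw : ContinuousOn (wv ρ (4 * (κ * ρ) ^ 2) K) (Set.Icc ((1 - ρ) ^ 2) ((1 + ρ) ^ 2)) := by
    have ne : ∀ r ∈ Set.Icc ((1 - ρ) ^ 2) ((1 + ρ) ^ 2), r ≠ 0 := fun r hr =>
      (lt_of_lt_of_le (m_pos h0 h1) hr.1).ne'
    unfold wv
    refine ContinuousOn.div ?_ (continuous_pow 4).continuousOn fun r hr => pow_ne_zero 4 (ne r hr)
    refine (yy_cont hK).comp_continuousOn ?_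
    unfold Xr
    exact (continuous_const.sub continuous_id).continuousOn.sub
      (continuousOn_const.div continuousOn_id ne)
  obtain ⟨U, V, W, M, N, n1, n2⟩ := approx h0 h1 (uu_cont hK l).continuousOn
    (vv_cont hK l).continuousOn hw (fun x a b => Lf_zero h0 h1 hx0 hK hl a b)
    (ε := ε / 2) (by positivity)
  refine ⟨U, V, W, M, N, ?_, by linarith⟩
  refine n1.trans_le ?_
  have e1 : ∀ θ : ℝ, ind ρ θ * cw (wv ρ (4 * (κ * ρ) ^ 2) K) ρ (Rf ρ θ) ^ 2 =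
      ind ρ θ * (1 - ch ρ (4 * (κ * ρ) ^ 2) K (Xr ρ (Rf ρ θ))) ^ 2 := by
    intro θ
    rw [cw_val h0 h1 hx0 hK (lt_of_lt_of_le (m_pos h0 h1) (Rf_mem h0 h1 θ).1)]
  unfold cf lsc
  simp only [e1]
  rw [← hP] at c2
  rw [← hQ] at c3
  rw [← hP, ← hQ]
  have e4 : l ^ 2 * (2 * P / Real.pi) + (l ^ 2)⁻¹ * (2 * Q / Real.pi) =
      4 / Real.pi * √(P * Q) := by
    have : l ^ 2 * (2 * P / Real.pi) + (l ^ 2)⁻¹ * (2 * Q / Real.pi) =
        2 / Real.pi * (l ^ 2 * P + (l ^ 2)⁻¹ * Q) := by ring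
    rw [this, hlm]; ring
  have e5 : 2 * ((Real.arcsin κ - Real.arcsin (κ * ρ)) / Real.pi) =
      2 / Real.pi * (Real.arcsin κ - Real.arcsin (κ * ρ)) := by ring
  linarith

end

end

end Pool.Agent.J4H76.LC
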